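import Mathlib

set_option autoImplicit false
set_option linter.unusedSectionVars false

open Set Metric Filter Topology

namespace Pool.Agent.Helper29.SF

universe u

variable {E : Type u} [NormedAddCommGroup E] [NormedSpace ℝ E]

/-- the norm is `2`-rough (two-sidedly) at `v` -/
def Rough (v : E) : Prop :=
  v ≠ 0 ∧ ∀ η : ℝ, 0 < η →
    ∃ w : E, ‖w‖ ≤ ‖v‖ ∧ (2 - η) * ‖v‖ ≤ ‖v + w‖ ∧ (2 - η) * ‖v‖ ≤ ‖v - w‖

/-- At a rough point there is a ridge of the norm in some direction `w`. -/
lemma ridge {v : E} (hv : Rough v) {η : ℝ} (hη : 0 < η) :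
    ∃ w : E, ‖w‖ ≤ 1 ∧ ∀ τ : ℝ, |τ| ≤ ‖v‖ → ‖v‖ + |τ| - η ≤ ‖v + τ • w‖ := by
  obtain ⟨hv0, hv1⟩ := hv
  have hn : 0 < ‖v‖ := norm_pos_iff.2 hv0
  obtain ⟨w, hw, h1, h2⟩ := hv1 (η / ‖v‖) (by positivity)
  have e1 : (2 - η / ‖v‖) * ‖v‖ = 2 * ‖v‖ - η := by field_simp
  rw [e1] at h1 h2
  refine ⟨(1 / ‖v‖) • w, ?_, ?_⟩
  · rw [norm_smul, Real.norm_eq_abs, abs_of_pos (by positivity), one_div_mul_eq_div,
      div_le_one hn]
    exact hw
  · intro τ hτ
    have key : ∀ (w' : E) (σ : ℝ), ‖w'‖ ≤ ‖v‖ → 2 * ‖v‖ - η ≤ ‖v + w'‖ → 0 ≤ σ → σ ≤ ‖v‖ →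
        ‖v‖ + σ - η ≤ ‖v + σ • ((1 / ‖v‖) • w')‖ := by
      intro w' σ hw' hvw h0 h3
      have e2 : v + w' = (v + σ • ((1 / ‖v‖) • w')) + (1 - σ / ‖v‖) • w' := by
        rw [smul_smul, sub_smul, one_smul, mul_one_div]
        abel
      have h4 : 0 ≤ 1 - σ / ‖v‖ := by
        rw [sub_nonneg, div_le_one hn]; exact h3
      have h5 : ‖(1 - σ / ‖v‖) • w'‖ ≤ ‖v‖ - σ := by
        rw [norm_smul, Real.norm_eq_abs, abs_of_nonneg h4]
        calc (1 - σ / ‖v‖) * ‖w'‖ ≤ (1 - σ / ‖v‖) * ‖v‖ := mul_le_mul_of_nonneg_left hw' h4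
          _ = ‖v‖ - σ := by field_simp
      have h6 := norm_add_le (v + σ • ((1 / ‖v‖) • w')) ((1 - σ / ‖v‖) • w')
      rw [← e2] at h6
      linarith
    rcases le_total 0 τ with h0 | h0
    · rw [abs_of_nonneg h0] at hτ ⊢
      exact key w τ hw h1 h0 hτ
    · rw [abs_of_nonpos h0] at hτ ⊢
      have h7 := key (-w) (-τ) (by rwa [norm_neg]) (by rwa [← sub_eq_add_neg]) (by linarith) hτ
      have e3 : v + -τ • (1 / ‖v‖) • -w = v + τ • (1 / ‖v‖) • w := by module
      rwa [e3] at h7

/-- The caterpillar simplex: near a point all of whose neighbours are rough there is a simplex of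
dimension `n` such that no functional of norm at most one supports points on all its facets. -/
theorem cater (n : ℕ) : ∀ t0 : ℝ, 0 < t0 → t0 ≤ 1 → ∃ θ : ℝ, 0 < θ ∧
    ∀ (v : E) (s : ℝ), 0 < s → (∀ u : E, ‖u - v‖ ≤ s → Rough u) →
      ∃ z : Fin (n + 1) → E, (∀ k, ‖z k - v‖ ≤ s) ∧
        ∀ f : E →L[ℝ] ℝ, ‖f‖ ≤ 1 → ∃ i : Fin (n + 1), ∀ μ ∈ stdSimplex ℝ (Fin (n + 1)), μ i = 0 →
          ∀ t : ℝ, t0 ≤ t → t ≤ 1 →
            f (t • (∑ k, μ k • z k - v)) + θ * s ≤ ‖v + t • (∑ k, μ k • z k - v)‖ - ‖v‖ := by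
  induction n with
  | zero =>
    intro t0 ht0 ht1
    refine ⟨1, one_pos, ?_⟩
    intro v s hs _
    refine ⟨fun _ => v, fun _ => by simpa using hs.le, ?_⟩
    intro f _
    refine ⟨0, ?_⟩
    intro μ hμ h0
    exfalso
    have h1 := hμ.2
    rw [Fin.sum_univ_one, h0] at h1
    exact zero_ne_one h1
  | succ n ih =>
    intro t0 ht0 ht1
    obtain ⟨θ', hθ', hin⟩ := ih (t0 / 4) (by positivity) (by linarith)
    set κ : ℝ := min (θ' / 8) (1 / 2) with hκ
    have hκ0 : 0 < κ := lt_min (by positivity) (by norm_num)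
    have hκθ : κ ≤ θ' / 8 := min_le_left _ _
    have hκh : κ ≤ 1 / 2 := min_le_right _ _
    set K : ℝ := 4 / κ with hK
    have hK0 : 0 < K := by positivity
    have hKκ : κ * K = 4 := by rw [hK]; field_simp
    set m : ℝ := min t0 (θ' / 4) with hm
    have hm0 : 0 < m := lt_min ht0 (by positivity)
    have hmt : m ≤ t0 := min_le_left _ _
    have hmθ : m ≤ θ' / 4 := min_le_right _ _
    refine ⟨m / (K + 1), by positivity, ?_⟩
    intro v sout hsout hrough
    set s : ℝ := sout / (K + 1) with hs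
    have hs0 : 0 < s := by positivity
    have hss : (K + 1) * s = sout := by rw [hs]; field_simp
    have hθs : m / (K + 1) * sout = m * s := by rw [hs]; field_simp
    have hv : Rough v := hrough v (by simpa using hsout.le)
    have hsv : sout < ‖v‖ := by
      by_contra hcon
      push Not at hcon
      exact (hrough 0 (by simpa using hcon)).1 rfl
    set ρ : ℝ := K * s with hρ
    have hρ0 : 0 < ρ := by positivity
    have hρs : ρ + s = sout := by rw [hρ, ← hss]; ring
    obtain ⟨w, hw, hridge⟩ := ridge hv (η := m * s) (by positivity)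
    set v' : E := v - ρ • w with hv'
    have hρw : ‖ρ • w‖ ≤ ρ := by
      rw [norm_smul, Real.norm_eq_abs, abs_of_pos hρ0]
      exact mul_le_of_le_one_right hρ0.le hw
    have hv'n : ‖v‖ + ρ - m * s ≤ ‖v'‖ := by
      have := hridge (-ρ) (by rw [abs_neg, abs_of_pos hρ0]; linarith)
      rw [abs_neg, abs_of_pos hρ0, neg_smul, ← sub_eq_add_neg] at this
      exact this
    obtain ⟨z', hz', hf'⟩ := hin v' s hs0 (by
      intro u hu
      refine hrough u ?_
      calc ‖u - v‖ = ‖(u - v') + -(ρ • w)‖ := by congr 1; rw [hv']; abel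
        _ ≤ ‖u - v'‖ + ‖-(ρ • w)‖ := norm_add_le _ _
        _ ≤ s + ρ := by rw [norm_neg]; exact add_le_add hu hρw
        _ = sout := by linarith)
    refine ⟨Fin.cons (v + ρ • w) z', ?_, ?_⟩
    · intro k
      refine Fin.cases ?_ ?_ k
      · rw [Fin.cons_zero, add_sub_cancel_left]
        linarith
      · intro k
        rw [Fin.cons_succ]
        calc ‖z' k - v‖ = ‖(z' k - v') + -(ρ • w)‖ := by congr 1; rw [hv']; abel
          _ ≤ ‖z' k - v'‖ + ‖-(ρ • w)‖ := norm_add_le _ _
          _ ≤ s + ρ := by rw [norm_neg]; exact add_le_add (hz' k) hρw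
          _ = sout := by linarith
    intro f hf
    have hfn : ∀ y : E, f y ≤ ‖y‖ := by
      intro y
      calc f y ≤ ‖f y‖ := le_abs_self _
        _ ≤ ‖f‖ * ‖y‖ := f.le_opNorm y
        _ ≤ 1 * ‖y‖ := by gcongr
        _ = ‖y‖ := one_mul _
    have hfw : -1 ≤ f w := by
      have := hfn (-w)
      rw [map_neg, norm_neg] at this
      linarith
    -- the decomposition of a point of the simplex
    have hdec : ∀ μ ∈ stdSimplex ℝ (Fin (n + 2)),
        (∑ k, μ k • (Fin.cons (v + ρ • w) z' : Fin (n + 2) → E) k) - v =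
          ((2 * μ 0 - 1) * ρ) • w + ∑ k : Fin (n + 1), μ k.succ • (z' k - v') := by
      intro μ hμ
      have h1 : ∑ k : Fin (n + 1), μ k.succ = 1 - μ 0 := by
        have := hμ.2
        rw [Fin.sum_univ_succ] at this
        linarith
      rw [Fin.sum_univ_succ]
      simp only [Fin.cons_zero, Fin.cons_succ, smul_sub, Finset.sum_sub_distrib]
      rw [← Finset.sum_smul, h1, hv']
      module
    have hdn : ∀ μ ∈ stdSimplex ℝ (Fin (n + 2)),
        ‖∑ k : Fin (n + 1), μ k.succ • (z' k - v')‖ ≤ s := by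
      intro μ hμ
      have h1 : ∑ k : Fin (n + 1), μ k.succ = 1 - μ 0 := by
        have := hμ.2
        rw [Fin.sum_univ_succ] at this
        linarith
      calc ‖∑ k : Fin (n + 1), μ k.succ • (z' k - v')‖
          ≤ ∑ k : Fin (n + 1), ‖μ k.succ • (z' k - v')‖ := norm_sum_le _ _
        _ ≤ ∑ k : Fin (n + 1), μ k.succ * s := by
            refine Finset.sum_le_sum (fun k _ => ?_)
            rw [norm_smul, Real.norm_eq_abs, abs_of_nonneg (hμ.1 _)]
            exact mul_le_mul_of_nonneg_left (hz' k) (hμ.1 _)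
        _ = (1 - μ 0) * s := by rw [← Finset.sum_mul, h1]
        _ ≤ s := by nlinarith [hμ.1 0]
    rw [hθs]
    by_cases hA : -1 + 4 / K < f w
    · refine ⟨0, ?_⟩
      intro μ hμ h0 t ht0' ht1'
      have htpos : 0 < t := by linarith
      rw [hdec μ hμ]
      set d := ∑ k : Fin (n + 1), μ k.succ • (z' k - v') with hd
      have hd1 : ‖d‖ ≤ s := hdn μ hμ
      rw [h0]
      have e1 : v + t • (((2 * 0 - 1) * ρ) • w + d) = (v + (-(t * ρ)) • w) + t • d := by module
      have h2 := hridge (-(t * ρ)) (by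
        rw [abs_neg, abs_of_pos (by positivity)]
        nlinarith)
      rw [abs_neg, abs_of_pos (by positivity)] at h2
      have h3 : ‖v + (-(t * ρ)) • w‖ ≤ ‖(v + (-(t * ρ)) • w) + t • d‖ + ‖t • d‖ := by
        have := norm_sub_le ((v + (-(t * ρ)) • w) + t • d) (t • d)
        rwa [add_sub_cancel_right] at this
      have h4 : ‖t • d‖ ≤ t * s := by
        rw [norm_smul, Real.norm_eq_abs, abs_of_pos htpos]
        exact mul_le_mul_of_nonneg_left hd1 htpos.le
      rw [e1]
      have h5 : f (t • (((2 * 0 - 1) * ρ) • w + d)) = -(t * ρ) * f w + f (t • d) := by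
        simp only [map_add, map_smul, smul_eq_mul]
        ring
      rw [h5]
      have h6 := hfn (t • d)
      have h7 : t * ρ * (-1 + 4 / K) ≤ t * ρ * f w :=
        mul_le_mul_of_nonneg_left hA.le (by positivity)
      have h8 : t * ρ * (4 / K) = 4 * (t * s) := by rw [hρ]; field_simp
      have h9 : m * s ≤ t * s := mul_le_mul_of_nonneg_right (by linarith) hs0.le
      nlinarith
    · push Not at hA
      obtain ⟨i, hi⟩ := hf' f hf
      refine ⟨i.succ, ?_⟩
      intro μ hμ h0 t ht0' ht1'
      have htpos : 0 < t := by linarith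
      rw [hdec μ hμ]
      set d := ∑ k : Fin (n + 1), μ k.succ • (z' k - v') with hd
      have hd1 : ‖d‖ ≤ s := hdn μ hμ
      set u : ℝ := μ 0 with hu
      have hu0 : 0 ≤ u := hμ.1 0
      have hsum : ∑ k : Fin (n + 1), μ k.succ = 1 - u := by
        have := hμ.2
        rw [Fin.sum_univ_succ] at this
        linarith
      have hu1 : u ≤ 1 := by
        have : 0 ≤ ∑ k : Fin (n + 1), μ k.succ := Finset.sum_nonneg (fun k _ => hμ.1 _)
        linarith
      by_cases hB : κ < 2 * u - 1
      · -- far on the ridge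
        have hpos : 0 < t * ((2 * u - 1) * ρ) := by
          have : 0 < 2 * u - 1 := by linarith
          positivity
        have e1 : v + t • (((2 * u - 1) * ρ) • w + d) =
            (v + (t * ((2 * u - 1) * ρ)) • w) + t • d := by module
        have hle : t * ((2 * u - 1) * ρ) ≤ ρ := by
          have h1 : (2 * u - 1) * ρ ≤ 1 * ρ := mul_le_mul_of_nonneg_right (by linarith) hρ0.le
          have h2 : 0 ≤ (2 * u - 1) * ρ := mul_nonneg (by linarith) hρ0.le
          calc t * ((2 * u - 1) * ρ) ≤ 1 * ((2 * u - 1) * ρ) :=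
                mul_le_mul_of_nonneg_right ht1' h2
            _ ≤ ρ := by linarith
        have h2 := hridge (t * ((2 * u - 1) * ρ)) (by
          rw [abs_of_pos hpos]
          linarith)
        rw [abs_of_pos hpos] at h2
        have h3 : ‖v + (t * ((2 * u - 1) * ρ)) • w‖ ≤
            ‖(v + (t * ((2 * u - 1) * ρ)) • w) + t • d‖ + ‖t • d‖ := by
          have := norm_sub_le ((v + (t * ((2 * u - 1) * ρ)) • w) + t • d) (t • d)
          rwa [add_sub_cancel_right] at this
        have h4 : ‖t • d‖ ≤ t * s := by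
          rw [norm_smul, Real.norm_eq_abs, abs_of_pos htpos]
          exact mul_le_mul_of_nonneg_left hd1 htpos.le
        rw [e1]
        have h5 : f (t • (((2 * u - 1) * ρ) • w + d)) =
            (t * ((2 * u - 1) * ρ)) * f w + f (t • d) := by
          simp only [map_add, map_smul, smul_eq_mul]
          ring
        rw [h5]
        have h6 := hfn (t • d)
        have hK1 : 4 / K ≤ 1 := by
          have : 4 / K = κ := by rw [hK]; field_simp
          linarith
        have h7 : (t * ((2 * u - 1) * ρ)) * f w ≤ 0 :=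
          mul_nonpos_of_nonneg_of_nonpos hpos.le (by linarith)
        have h8 : t * (4 * s) ≤ t * ((2 * u - 1) * ρ) := by
          refine mul_le_mul_of_nonneg_left ?_ htpos.le
          calc 4 * s = κ * ρ := by rw [hρ, ← hKκ]; ring
            _ ≤ (2 * u - 1) * ρ := mul_le_mul_of_nonneg_right hB.le hρ0.le
        have h9 : m * s ≤ t * s := mul_le_mul_of_nonneg_right (by linarith) hs0.le
        nlinarith
      · push Not at hB
        have hu2 : 1 / 4 ≤ 1 - u := by linarith
        have hu3 : 0 < 1 - u := by linarith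
        set μ' : Fin (n + 1) → ℝ := fun k => μ k.succ / (1 - u) with hμ'
        have hμ's : μ' ∈ stdSimplex ℝ (Fin (n + 1)) := by
          refine ⟨fun k => div_nonneg (hμ.1 _) hu3.le, ?_⟩
          simp only [hμ']
          rw [← Finset.sum_div, hsum, div_self hu3.ne']
        have hμ'0 : μ' i = 0 := by
          simp only [hμ']
          rw [h0, zero_div]
        have h1 := hi μ' hμ's hμ'0 (t * (1 - u)) (by nlinarith) (by nlinarith)
        have e2 : (t * (1 - u)) • (∑ k, μ' k • z' k - v') = t • d := by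
          have e3 : ∑ k, μ' k • z' k - v' = ∑ k, μ' k • (z' k - v') := by
            simp only [smul_sub, Finset.sum_sub_distrib]
            rw [← Finset.sum_smul, hμ's.2, one_smul]
          rw [e3, mul_smul, hd, Finset.smul_sum]
          congr 1
          refine Finset.sum_congr rfl (fun k _ => ?_)
          rw [smul_smul]
          simp only [hμ']
          congr 1
          field_simp
        rw [e2] at h1
        have e4 : v' + t • d = (v + t • (((2 * u - 1) * ρ) • w + d)) -
            (ρ * (1 + t * (2 * u - 1))) • w := by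
          rw [hv']; module
        have hc0 : 0 ≤ 1 + t * (2 * u - 1) := by nlinarith
        have h2 : ‖v' + t • d‖ ≤ ‖v + t • (((2 * u - 1) * ρ) • w + d)‖ +
            ρ * (1 + t * (2 * u - 1)) := by
          rw [e4]
          refine (norm_sub_le _ _).trans ?_
          have : ‖(ρ * (1 + t * (2 * u - 1))) • w‖ ≤ ρ * (1 + t * (2 * u - 1)) := by
            rw [norm_smul, Real.norm_eq_abs, abs_of_nonneg (by positivity)]
            exact mul_le_of_le_one_right (by positivity) hw
          linarith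
        have h5 : f (t • (((2 * u - 1) * ρ) • w + d)) =
            (t * ((2 * u - 1) * ρ)) * f w + f (t • d) := by
          simp only [map_add, map_smul, smul_eq_mul]
          ring
        rw [h5]
        -- the loss
        have h6 : t * ((2 * u - 1) * ρ) * (1 + f w) ≤ θ' * s / 2 := by
          rcases le_total (2 * u - 1) 0 with h7 | h7
          · have h8 : t * ((2 * u - 1) * ρ) ≤ 0 :=
              mul_nonpos_of_nonneg_of_nonpos htpos.le
                (mul_nonpos_of_nonpos_of_nonneg h7 hρ0.le)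
            have h9 : t * ((2 * u - 1) * ρ) * (1 + f w) ≤ 0 :=
              mul_nonpos_of_nonpos_of_nonneg h8 (by linarith)
            have : 0 ≤ θ' * s / 2 := by positivity
            linarith
          · have h8 : t * ((2 * u - 1) * ρ) ≤ κ * ρ := by
              have h10 : (2 * u - 1) * ρ ≤ κ * ρ := mul_le_mul_of_nonneg_right hB hρ0.le
              have h11 : 0 ≤ (2 * u - 1) * ρ := mul_nonneg h7 hρ0.le
              calc t * ((2 * u - 1) * ρ) ≤ 1 * ((2 * u - 1) * ρ) :=
                    mul_le_mul_of_nonneg_right ht1' h11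
                _ ≤ κ * ρ := by linarith
            have h9 : 1 + f w ≤ 4 / K := by linarith
            calc t * ((2 * u - 1) * ρ) * (1 + f w) ≤ κ * ρ * (4 / K) :=
                  mul_le_mul h8 h9 (by linarith) (by positivity)
              _ = 4 * κ * s := by rw [hρ]; field_simp
              _ ≤ 4 * (θ' / 8) * s := by gcongr
              _ = θ' * s / 2 := by ring
        have h7 : m * s ≤ θ' / 4 * s := mul_le_mul_of_nonneg_right hmθ hs0.le
        nlinarith

end Pool.Agent.Helper29.SF
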