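import Pool.Agent.Helper29.SF.Slice
import Pool.Agent.Helper50.StarFinite3

set_option autoImplicit false
set_option linter.unusedSectionVars false

open Set Metric Filter Topology
open Pool.Agent.Helper50.StarFinite

namespace Pool.Agent.Helper29.SF

universe u v

section A

variable {E : Type u} [NormedAddCommGroup E] [NormedSpace ℝ E]

/-- finitely many closed balls which miss `p` are separated from `p` by finitely many functionals -/
lemma sep_finset {p : E} (D : Finset (E × ℝ)) (hD : ∀ d ∈ D, p ∉ closedBall d.1 d.2) :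
    ∃ s : Finset (E →L[ℝ] ℝ), ∀ v : E, (∀ g ∈ s, g v = g p) → ∀ d ∈ D, v ∉ closedBall d.1 d.2 := by
  classical
  have hsep : ∀ d : E × ℝ, ∃ g : E →L[ℝ] ℝ, d ∈ D → ∀ b ∈ closedBall d.1 d.2, g b < g p := by
    intro d
    by_cases hd : d ∈ D
    · obtain ⟨f, u, h1, h2⟩ := geometric_hahn_banach_closed_point
        (convex_closedBall d.1 d.2) isClosed_closedBall (hD d hd)
      exact ⟨f, fun _ b hb => (h1 b hb).trans h2⟩
    · exact ⟨0, fun h => absurd h hd⟩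
  choose g hg using hsep
  refine ⟨D.image g, ?_⟩
  intro v hv d hd hvd
  have h1 := hg d hd v hvd
  have h2 := hv (g d) (Finset.mem_image_of_mem g hd)
  linarith

/-- a ray from a point of the open unit ball crosses the unit sphere -/
lemma exists_unit {p y : E} (hp : ‖p‖ < 1) (hy : y ≠ 0) : ∃ t : ℝ, 0 ≤ t ∧ ‖p + t • y‖ = 1 := by
  have hny : 0 < ‖y‖ := norm_pos_iff.2 hy
  have hc : Continuous (fun t : ℝ => ‖p + t • y‖) := by fun_prop
  have h0 : (fun t : ℝ => ‖p + t • y‖) 0 ≤ 1 := by simpa using hp.le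
  have h1 : 1 ≤ (fun t : ℝ => ‖p + t • y‖) (2 / ‖y‖) := by
    simp only
    have h2 : ‖(2 / ‖y‖) • y‖ = 2 := by
      rw [norm_smul, Real.norm_eq_abs, abs_of_pos (by positivity)]
      field_simp
    have h3 : ‖(2 / ‖y‖) • y‖ ≤ ‖p + (2 / ‖y‖) • y‖ + ‖p‖ := by
      have := norm_sub_le (p + (2 / ‖y‖) • y) p
      rwa [add_sub_cancel_left] at this
    linarith
  obtain ⟨t, ht, hte⟩ := intermediate_value_Icc (by positivity : (0 : ℝ) ≤ 2 / ‖y‖)
    hc.continuousOn ⟨h0, h1⟩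
  exact ⟨t, ht.1, hte⟩

end A

section B

variable {Y Z : Type u} [NormedAddCommGroup Y] [NormedSpace ℝ Y]
  [NormedAddCommGroup Z] [NormedSpace ℝ Z]
variable {ι : Type v} {c : ι → Y × Z} {r : ι → ℝ}

/-- If the sup-sum of `Y` and `Z` has a star-finite covering by balls and `Z` is infinite
dimensional, then the dual of `Z` is not separable. -/
theorem sup_sum [CompleteSpace Y] [CompleteSpace Z] [TopologicalSpace.SeparableSpace Y]
    [TopologicalSpace.SeparableSpace Z]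
    (hZ : ¬ FiniteDimensional ℝ Z) (hr : ∀ i, 0 < r i)
    (hcov : (⋃ i, closedBall (c i) (r i)) = univ)
    (hstar : ∀ i, {j : ι | (closedBall (c i) (r i) ∩ closedBall (c j) (r j)).Nonempty}.Finite) :
    ¬ TopologicalSpace.SeparableSpace (Z →L[ℝ] ℝ) := by
  classical
  obtain ⟨p, hp, D, hD, hrough⟩ := rough_off_balls hr hcov hstar
  obtain ⟨s, hs⟩ := sep_finset D (fun d hd => (hD d hd).2)
  obtain ⟨y, hy0, hy⟩ := exists_ne_zero_ker hZ
    (s := (fun g : (Y × Z) →L[ℝ] ℝ => g.comp (ContinuousLinearMap.inr ℝ Y Z)) '' (s : Set _))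
    (s.finite_toSet.image _)
  have hp1 : ‖p.1‖ < 1 := (norm_fst_le p).trans_lt hp
  have hp2 : ‖p.2‖ < 1 := (norm_snd_le p).trans_lt hp
  obtain ⟨t, _, ht⟩ := exists_unit hp2 hy0
  set z0 : Z := p.2 + t • y with hz0
  have hv0 : ∀ d ∈ D, ((p.1, z0) : Y × Z) ∉ closedBall d.1 d.2 := by
    refine hs _ ?_
    intro g hg
    have h1 := hy _ ⟨g, hg, rfl⟩
    simp only [ContinuousLinearMap.comp_apply, ContinuousLinearMap.inr_apply] at h1
    have e : ((p.1, z0) : Y × Z) = p + t • ((0, y) : Y × Z) := by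
      ext <;> simp [hz0]
    rw [e, map_add, map_smul, h1, smul_zero, add_zero]
  have hcl : IsClosed (⋃ d ∈ D, closedBall d.1 d.2 : Set (Y × Z)) :=
    D.finite_toSet.isClosed_biUnion (fun _ _ => isClosed_closedBall)
  have hmem : ((p.1, z0) : Y × Z) ∈ (⋃ d ∈ D, closedBall d.1 d.2)ᶜ := by
    simp only [mem_compl_iff, mem_iUnion, not_exists]
    exact fun d hd => hv0 d hd
  obtain ⟨δ, hδ, hsub⟩ := Metric.isOpen_iff.1 hcl.isOpen_compl _ hmem
  have hnb : ∀ z : Z, ‖z‖ = 1 → ‖z - z0‖ < δ → ∀ η : ℝ, 0 < η →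
      ∃ w : Z, ‖w‖ ≤ 1 ∧ 2 - η ≤ ‖z + w‖ ∧ 2 - η ≤ ‖z - w‖ := by
    intro z hz hzz η hη
    have h1 : ((p.1, z) : Y × Z) ∈ ball ((p.1, z0) : Y × Z) δ := by
      rw [mem_ball, dist_eq_norm, Prod.mk_sub_mk, sub_self, Prod.norm_mk, norm_zero]
      exact max_lt hδ hzz
    have h2 := hsub h1
    simp only [mem_compl_iff, mem_iUnion, not_exists] at h2
    obtain ⟨w, hw, hw1, hw2⟩ := hrough (p.1, z)
      (by rw [Prod.norm_mk, hz]; exact max_eq_right hp1.le) (fun d hd => h2 d hd)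
      (min η ((1 - ‖p.1‖) / 2)) (lt_min hη (by linarith))
    have hm1 := min_le_left η ((1 - ‖p.1‖) / 2)
    have hm2 := min_le_right η ((1 - ‖p.1‖) / 2)
    have hw1' : ‖w.1‖ ≤ 1 := (norm_fst_le w).trans hw
    refine ⟨w.2, (norm_snd_le w).trans hw, ?_, ?_⟩
    · have h3 : ‖p.1 + w.1‖ ≤ ‖p.1‖ + ‖w.1‖ := norm_add_le _ _
      have h4 : ‖((p.1, z) : Y × Z) + w‖ = max ‖p.1 + w.1‖ ‖z + w.2‖ := rfl
      rw [h4] at hw1
      rcases le_max_iff.1 hw1 with h5 | h5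
      · linarith
      · linarith
    · have h3 : ‖p.1 - w.1‖ ≤ ‖p.1‖ + ‖w.1‖ := norm_sub_le _ _
      have h4 : ‖((p.1, z) : Y × Z) - w‖ = max ‖p.1 - w.1‖ ‖z - w.2‖ := rfl
      rw [h4] at hw2
      rcases le_max_iff.1 hw2 with h5 | h5
      · linarith
      · linarith
  refine not_separable_dual (G := {v : Z | v ≠ 0 ∧ ‖(1 / ‖v‖) • v - z0‖ < δ}) ?_ ⟨z0, ?_, ?_⟩ ?_
  · rw [isOpen_iff_mem_nhds]
    rintro v ⟨hv0, hv⟩
    have hc : ContinuousAt (fun v : Z => ‖(1 / ‖v‖) • v - z0‖) v := by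
      have : ‖v‖ ≠ 0 := norm_ne_zero_iff.2 hv0
      fun_prop (disch := assumption)
    have e1 : ∀ᶠ y in 𝓝 v, ‖(1 / ‖y‖) • y - z0‖ < δ := hc.eventually (gt_mem_nhds hv)
    have e2 : ∀ᶠ y in 𝓝 v, y ≠ 0 := isOpen_ne.mem_nhds hv0
    filter_upwards [e1, e2] with y hy1 hy2
    exact ⟨hy2, hy1⟩
  · intro h0
    rw [h0, norm_zero] at ht
    exact zero_ne_one ht
  · rw [ht]
    simpa using hδ
  · rintro v ⟨hv0, hv⟩
    refine ⟨hv0, ?_⟩
    intro η hη
    have hn : 0 < ‖v‖ := norm_pos_iff.2 hv0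
    have hu : ‖(1 / ‖v‖) • v‖ = 1 := by
      rw [norm_smul, Real.norm_eq_abs, abs_of_pos (by positivity)]
      field_simp
    obtain ⟨w, hw, hw1, hw2⟩ := hnb _ hu hv η hη
    have hvv : v = ‖v‖ • ((1 / ‖v‖) • v) := by
      rw [smul_smul, mul_one_div_cancel hn.ne', one_smul]
    refine ⟨‖v‖ • w, ?_, ?_, ?_⟩
    · rw [norm_smul, norm_norm]
      nlinarith
    · have : v + ‖v‖ • w = ‖v‖ • ((1 / ‖v‖) • v + w) := by
        rw [smul_add, ← hvv]
      rw [this, norm_smul, norm_norm]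
      nlinarith
    · have : v - ‖v‖ • w = ‖v‖ • ((1 / ‖v‖) • v - w) := by
        rw [smul_sub, ← hvv]
      rw [this, norm_smul, norm_norm]
      nlinarith

end B

end Pool.Agent.Helper29.SF
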