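import Pool.Agent.Helper29.SF.Cor

set_option autoImplicit false
set_option linter.unusedSectionVars false

open Set Metric Filter Topology
open Pool.Agent.Helper50.StarFinite

namespace Pool.Agent.Helper29.SF

universe u v

variable {E : Type u} [NormedAddCommGroup E] [NormedSpace ℝ E]
variable {ι : Type v} {c : ι → E} {r : ι → ℝ}

/-- from unit vectors to all nonzero vectors -/
lemma rough_of_unit {v : E} (hv : v ≠ 0)
    (h : ∀ η : ℝ, 0 < η → ∃ w : E, ‖w‖ ≤ 1 ∧ 2 - η ≤ ‖(1 / ‖v‖) • v + w‖ ∧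
      2 - η ≤ ‖(1 / ‖v‖) • v - w‖) :
    ∀ η : ℝ, 0 < η →
      ∃ w : E, ‖w‖ ≤ ‖v‖ ∧ (2 - η) * ‖v‖ ≤ ‖v + w‖ ∧ (2 - η) * ‖v‖ ≤ ‖v - w‖ := by
  intro η hη
  have hn : 0 < ‖v‖ := norm_pos_iff.2 hv
  obtain ⟨w, hw, hw1, hw2⟩ := h η hη
  have hvv : v = ‖v‖ • ((1 / ‖v‖) • v) := by
    rw [smul_smul, mul_one_div_cancel hn.ne', one_smul]
  refine ⟨‖v‖ • w, ?_, ?_, ?_⟩
  · rw [norm_smul, norm_norm]
    nlinarith
  · have : v + ‖v‖ • w = ‖v‖ • ((1 / ‖v‖) • v + w) := by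
      rw [smul_add, ← hvv]
    rw [this, norm_smul, norm_norm]
    nlinarith
  · have : v - ‖v‖ • w = ‖v‖ • ((1 / ‖v‖) • v - w) := by
      rw [smul_sub, ← hvv]
    rw [this, norm_smul, norm_norm]
    nlinarith

lemma tendsto_dir {v : E} (hv : v ≠ 0) :
    ContinuousAt (fun u : E => (1 / ‖u‖) • u) v := by
  have : ‖v‖ ≠ 0 := norm_ne_zero_iff.2 hv
  fun_prop (disch := assumption)

/-- the slice form of the theorem -/
theorem rough_slice [CompleteSpace E] [TopologicalSpace.SeparableSpace E]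
    (hE : ¬ FiniteDimensional ℝ E) (hr : ∀ i, 0 < r i)
    (hcov : (⋃ i, closedBall (c i) (r i)) = univ)
    (hstar : ∀ i, {j : ι | (closedBall (c i) (r i) ∩ closedBall (c j) (r j)).Nonempty}.Finite) :
    ∃ p : E, ‖p‖ < 1 ∧ ∃ F : Finset (E →L[ℝ] ℝ),
      (∃ v : E, ‖v‖ = 1 ∧ ∀ f ∈ F, f v = f p) ∧
      ∀ v : E, ‖v‖ = 1 → (∀ f ∈ F, f v = f p) → ∃ δ : ℝ, 0 < δ ∧ ∀ u : E, ‖u - v‖ < δ →
        (∀ η : ℝ, 0 < η →
          ∃ w : E, ‖w‖ ≤ ‖u‖ ∧ (2 - η) * ‖u‖ ≤ ‖u + w‖ ∧ (2 - η) * ‖u‖ ≤ ‖u - w‖) ∧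
        ¬ DifferentiableAt ℝ (fun x : E => ‖x‖) u := by
  classical
  obtain ⟨p, hp, D, hD, hrough⟩ := rough_off_balls hr hcov hstar
  obtain ⟨F, hF⟩ := sep_finset D (fun d hd => (hD d hd).2)
  refine ⟨p, hp, F, ?_, ?_⟩
  · obtain ⟨y, hy0, hy⟩ := exists_ne_zero_ker hE (s := (F : Set (E →L[ℝ] ℝ))) F.finite_toSet
    obtain ⟨t, _, ht⟩ := exists_unit hp hy0
    refine ⟨p + t • y, ht, ?_⟩
    intro f hf
    rw [map_add, map_smul, hy f hf, smul_zero, add_zero]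
  · intro v hv hvF
    have hvD := hF v hvF
    have hcl : IsClosed (⋃ d ∈ D, closedBall d.1 d.2 : Set E) :=
      D.finite_toSet.isClosed_biUnion (fun _ _ => isClosed_closedBall)
    have hmem : v ∈ (⋃ d ∈ D, closedBall d.1 d.2)ᶜ := by
      simp only [mem_compl_iff, mem_iUnion, not_exists]
      exact fun d hd => hvD d hd
    have hv0 : v ≠ 0 := by
      intro h0
      rw [h0, norm_zero] at hv
      exact zero_ne_one hv
    have hvv : (1 / ‖v‖) • v = v := by rw [hv]; simp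
    have h1 : ∀ᶠ u in 𝓝 v, (1 / ‖u‖) • u ∈ (⋃ d ∈ D, closedBall d.1 d.2)ᶜ := by
      refine (tendsto_dir hv0).eventually ?_
      simp only [hvv]
      exact hcl.isOpen_compl.mem_nhds hmem
    have h2 : ∀ᶠ u in 𝓝 v, u ≠ 0 := isOpen_ne.mem_nhds hv0
    obtain ⟨δ, hδ, hsub⟩ := Metric.eventually_nhds_iff.1 (h1.and h2)
    refine ⟨δ, hδ, ?_⟩
    intro u hu
    obtain ⟨h3, h4⟩ := hsub (y := u) (by rwa [dist_eq_norm])
    simp only [mem_compl_iff, mem_iUnion, not_exists] at h3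
    have hn : 0 < ‖u‖ := norm_pos_iff.2 h4
    have h5 := rough_of_unit h4 (hrough _ (by
      rw [norm_smul, Real.norm_eq_abs, abs_of_pos (by positivity)]
      field_simp) (fun d hd => h3 d hd))
    exact ⟨h5, not_differentiable h4 h5⟩

/-- No `M`-summand of infinite dimension has a separable dual. -/
theorem m_summand [CompleteSpace E] [TopologicalSpace.SeparableSpace E]
    (hr : ∀ i, 0 < r i)
    (hcov : (⋃ i, closedBall (c i) (r i)) = univ)
    (hstar : ∀ i, {j : ι | (closedBall (c i) (r i) ∩ closedBall (c j) (r j)).Nonempty}.Finite)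
    (Z : Submodule ℝ E) (P : E →L[ℝ] E) (hPZ : ∀ x, P x ∈ Z) (hP : ∀ z ∈ Z, P z = z)
    (hM : ∀ x, ‖x‖ = max ‖P x‖ ‖x - P x‖) (hZ : ¬ FiniteDimensional ℝ Z) :
    ¬ TopologicalSpace.SeparableSpace (Z →L[ℝ] ℝ) := by
  classical
  have hZc : IsClosed (Z : Set E) := by
    have : (Z : Set E) = {x | P x = x} := by
      ext x
      refine ⟨fun hx => hP x hx, fun hx => ?_⟩
      have h1 : P x = x := hx
      rw [← h1]
      exact hPZ x
    rw [this]
    exact isClosed_eq P.continuous continuous_id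
  have : CompleteSpace Z := hZc.completeSpace_coe
  obtain ⟨p, hp, D, hD, hrough⟩ := rough_off_balls hr hcov hstar
  obtain ⟨s, hs⟩ := sep_finset D (fun d hd => (hD d hd).2)
  obtain ⟨y, hy0, hy⟩ := exists_ne_zero_ker hZ
    (s := (fun g : E →L[ℝ] ℝ => g.comp Z.subtypeL) '' (s : Set _)) (s.finite_toSet.image _)
  have hMp := hM p
  have hp1 : ‖p - P p‖ < 1 := by
    have := le_max_right ‖P p‖ ‖p - P p‖
    linarith
  have hp2 : ‖(⟨P p, hPZ p⟩ : Z)‖ < 1 := by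
    have := le_max_left ‖P p‖ ‖p - P p‖
    have e : ‖(⟨P p, hPZ p⟩ : Z)‖ = ‖P p‖ := rfl
    linarith
  obtain ⟨t, _, ht⟩ := exists_unit hp2 hy0
  set z0 : Z := ⟨P p, hPZ p⟩ + t • y with hz0
  have hv0 : ∀ d ∈ D, (p - P p) + (z0 : E) ∉ closedBall d.1 d.2 := by
    refine hs _ ?_
    intro g hg
    have h1 := hy _ ⟨g, hg, rfl⟩
    have h1' : g (y : E) = 0 := h1
    have e : (p - P p) + (z0 : E) = p + t • (y : E) := by
      simp only [hz0, Submodule.coe_add, Submodule.coe_smul]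
      abel
    rw [e, map_add, map_smul, h1', smul_zero, add_zero]
  have hcl : IsClosed (⋃ d ∈ D, closedBall d.1 d.2 : Set E) :=
    D.finite_toSet.isClosed_biUnion (fun _ _ => isClosed_closedBall)
  have hmem : (p - P p) + (z0 : E) ∈ (⋃ d ∈ D, closedBall d.1 d.2)ᶜ := by
    simp only [mem_compl_iff, mem_iUnion, not_exists]
    exact fun d hd => hv0 d hd
  obtain ⟨δ, hδ, hsub⟩ := Metric.isOpen_iff.1 hcl.isOpen_compl _ hmem
  have hnb : ∀ z : Z, ‖z‖ = 1 → ‖z - z0‖ < δ → ∀ η : ℝ, 0 < η →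
      ∃ w : Z, ‖w‖ ≤ 1 ∧ 2 - η ≤ ‖z + w‖ ∧ 2 - η ≤ ‖z - w‖ := by
    intro z hz hzz η hη
    have h1 : (p - P p) + (z : E) ∈ ball ((p - P p) + (z0 : E)) δ := by
      rw [mem_ball, dist_eq_norm, add_sub_add_left_eq_sub]
      exact hzz
    have h2 := hsub h1
    simp only [mem_compl_iff, mem_iUnion, not_exists] at h2
    have hPz : P (z : E) = z := hP z z.2
    have hPv : P ((p - P p) + (z : E)) = z := by
      rw [map_add, map_sub, hP _ (hPZ p), sub_self, zero_add, hPz]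
    have hzn : ‖(z : E)‖ = 1 := hz
    have hvn : ‖(p - P p) + (z : E)‖ = 1 := by
      rw [hM, hPv, add_sub_cancel_right, hzn]
      exact max_eq_left hp1.le
    obtain ⟨w, hw, hw1, hw2⟩ := hrough _ hvn (fun d hd => h2 d hd)
      (min η ((1 - ‖p - P p‖) / 2)) (lt_min hη (by linarith))
    have hm1 := min_le_left η ((1 - ‖p - P p‖) / 2)
    have hm2 := min_le_right η ((1 - ‖p - P p‖) / 2)
    have hMw := hM w
    have hw1' : ‖w - P w‖ ≤ 1 := by
      have := le_max_right ‖P w‖ ‖w - P w‖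
      linarith
    have hw2' : ‖P w‖ ≤ 1 := by
      have := le_max_left ‖P w‖ ‖w - P w‖
      linarith
    refine ⟨⟨P w, hPZ w⟩, hw2', ?_, ?_⟩
    · have h4 : ‖(p - P p) + (z : E) + w‖ = max ‖(z : E) + P w‖ ‖(p - P p) + (w - P w)‖ := by
        rw [hM, map_add, hPv]
        congr 2
        abel
      have h3 := norm_add_le (p - P p) (w - P w)
      rw [h4] at hw1
      show 2 - η ≤ ‖(z : E) + P w‖
      rcases le_max_iff.1 hw1 with h5 | h5
      · linarith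
      · linarith
    · have h4 : ‖(p - P p) + (z : E) - w‖ = max ‖(z : E) - P w‖ ‖(p - P p) - (w - P w)‖ := by
        rw [hM, map_sub, hPv]
        congr 2
        abel
      have h3 := norm_sub_le (p - P p) (w - P w)
      rw [h4] at hw2
      show 2 - η ≤ ‖(z : E) - P w‖
      rcases le_max_iff.1 hw2 with h5 | h5
      · linarith
      · linarith
  have hz0ne : z0 ≠ 0 := by
    intro h0
    rw [h0, norm_zero] at ht
    exact zero_ne_one ht
  refine not_separable_dual (G := {v : Z | v ≠ 0 ∧ ‖(1 / ‖v‖) • v - z0‖ < δ}) ?_ ⟨z0, hz0ne, ?_⟩ ?_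
  · rw [isOpen_iff_mem_nhds]
    rintro v ⟨hv0, hv⟩
    have hc : ContinuousAt (fun v : Z => ‖(1 / ‖v‖) • v - z0‖) v :=
      ((tendsto_dir hv0).sub continuousAt_const).norm
    have e1 : ∀ᶠ y in 𝓝 v, ‖(1 / ‖y‖) • y - z0‖ < δ := hc.eventually (gt_mem_nhds hv)
    have e2 : ∀ᶠ y in 𝓝 v, y ≠ 0 := isOpen_ne.mem_nhds hv0
    filter_upwards [e1, e2] with y hy1 hy2
    exact ⟨hy2, hy1⟩
  · rw [ht]
    simpa using hδ
  · rintro v ⟨hv0, hv⟩
    have hn : 0 < ‖v‖ := norm_pos_iff.2 hv0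
    refine ⟨hv0, rough_of_unit hv0 (hnb _ ?_ hv)⟩
    rw [norm_smul, Real.norm_eq_abs, abs_of_pos (by positivity)]
    field_simp

end Pool.Agent.Helper29.SF
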