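import Mathlib

set_option autoImplicit false

open Set Metric Filter Topology

namespace Pool.Agent.Helper29.SF

universe u v

/-- A point-finite cover has an irreducible subcover. -/
theorem exists_irreducible {E : Type u} {ι : Type v} (B : ι → Set E)
    (hcov : (⋃ i, B i) = univ) (hfin : ∀ x : E, {j : ι | x ∈ B j}.Finite) :
    ∃ T : Set ι, (∀ x : E, ∃ i ∈ T, x ∈ B i) ∧
      ∀ i ∈ T, ∃ p ∈ B i, ∀ k ∈ T, k ≠ i → p ∉ B k := by
  classical
  obtain ⟨T, hT⟩ := zorn_superset {T : Set ι | ∀ x : E, ∃ i ∈ T, x ∈ B i} (by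
    intro 𝒞 h𝒞 hchain
    by_cases hne : 𝒞.Nonempty
    · refine ⟨⋂₀ 𝒞, ?_, fun s hs => sInter_subset_of_mem hs⟩
      intro x
      by_contra hcon
      push Not at hcon
      -- for each ball through x some member of the chain avoids it
      have h1 : ∀ i : ι, ∃ S ∈ 𝒞, x ∈ B i → i ∉ S := by
        intro i
        by_cases hi : x ∈ B i
        · have h2 : i ∉ ⋂₀ 𝒞 := fun h => hcon i h hi
          rw [mem_sInter] at h2
          push Not at h2
          obtain ⟨S, hS, hiS⟩ := h2
          exact ⟨S, hS, fun _ => hiS⟩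
        · obtain ⟨S, hS⟩ := hne
          exact ⟨S, hS, fun h => absurd h hi⟩
      choose S hS hSi using h1
      have h3 : ∀ s : Set ι, s.Finite → ∃ R ∈ 𝒞, ∀ i ∈ s, R ⊆ S i := by
        intro s hs
        induction s, hs using Set.Finite.induction_on with
        | empty => obtain ⟨R, hR⟩ := hne; exact ⟨R, hR, by simp⟩
        | @insert a s _ _ ih =>
          obtain ⟨R, hR, hRs⟩ := ih
          rcases hchain.total hR (hS a) with h | h
          · refine ⟨R, hR, ?_⟩
            intro i hi
            rcases hi with rfl | hi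
            · exact h
            · exact hRs i hi
          · refine ⟨S a, hS a, ?_⟩
            intro i hi
            rcases hi with rfl | hi
            · exact subset_rfl
            · exact h.trans (hRs i hi)
      obtain ⟨R, hR, hRs⟩ := h3 _ (hfin x)
      obtain ⟨i, hiR, hxi⟩ := h𝒞 hR x
      exact hSi i hxi (hRs i hxi hiR)
    · refine ⟨univ, ?_, fun s hs => absurd ⟨s, hs⟩ hne⟩
      intro x
      have : x ∈ ⋃ i, B i := by rw [hcov]; trivial
      obtain ⟨i, hi⟩ := mem_iUnion.1 this
      exact ⟨i, mem_univ i, hi⟩)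
  refine ⟨T, hT.prop, ?_⟩
  intro i hi
  by_contra hcon
  push Not at hcon
  have h1 : T \ {i} ∈ {T : Set ι | ∀ x : E, ∃ i ∈ T, x ∈ B i} := by
    intro x
    obtain ⟨k, hk, hxk⟩ := hT.prop x
    by_cases hki : k = i
    · subst hki
      obtain ⟨m, hm, hmk, hxm⟩ := hcon x hxk
      exact ⟨m, ⟨hm, hmk⟩, hxm⟩
    · exact ⟨k, ⟨hk, hki⟩, hxk⟩
  have h2 := hT.le_of_le h1 sdiff_subset
  exact (h2 hi).2 rfl

end Pool.Agent.Helper29.SF
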