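import Pool.Agent.Helper30.Brouwer.Kakutani

set_option autoImplicit false

open Set Metric Filter Topology

namespace Pool.Agent.Helper29.SF

/-- The closed Sperner-KKM lemma: closed sets covering the simplex, the `i`-th of which misses the
facet opposite to the vertex `i`, have a common point. -/
theorem kkm (n : ℕ) (A : Fin (n + 1) → Set (Fin (n + 1) → ℝ)) (hA : ∀ i, IsClosed (A i))
    (hcov : ∀ μ ∈ stdSimplex ℝ (Fin (n + 1)), ∃ i, μ ∈ A i)
    (hmiss : ∀ i, ∀ μ ∈ stdSimplex ℝ (Fin (n + 1)), μ i = 0 → μ ∉ A i) :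
    ∃ μ ∈ stdSimplex ℝ (Fin (n + 1)), ∀ i, μ ∈ A i := by
  classical
  by_contra hcon
  push Not at hcon
  have hne : ∀ i, (A i).Nonempty := by
    intro i
    have hv : (Pi.single i 1 : Fin (n + 1) → ℝ) ∈ stdSimplex ℝ (Fin (n + 1)) :=
      single_mem_stdSimplex ℝ i
    obtain ⟨k, hk⟩ := hcov _ hv
    by_cases hki : k = i
    · subst hki; exact ⟨_, hk⟩
    · exact absurd hk (hmiss k _ hv (by simp [Pi.single_eq_of_ne hki]))
  set D : (Fin (n + 1) → ℝ) → ℝ := fun μ => ∑ i, infDist μ (A i) with hD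
  have hDpos : ∀ μ ∈ stdSimplex ℝ (Fin (n + 1)), 0 < D μ := by
    intro μ hμ
    obtain ⟨i, hi⟩ := hcon μ hμ
    have h1 : 0 < infDist μ (A i) := ((hA i).notMem_iff_infDist_pos (hne i)).1 hi
    exact Finset.sum_pos' (fun k _ => infDist_nonneg) ⟨i, Finset.mem_univ i, h1⟩
  have hDc : Continuous D := continuous_finsetSum _ (fun i _ => continuous_infDist_pt (A i))
  let F : (Fin (n + 1) → ℝ) → (Fin (n + 1) → ℝ) := fun μ i => infDist μ (A i) / D μ
  obtain ⟨μ, hμ, hfix⟩ := Pool.Agent.Helper30.Brouwer.brouwer_fd (stdSimplex ℝ (Fin (n + 1)))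
    (isCompact_stdSimplex ℝ (Fin (n + 1))) (convex_stdSimplex ℝ (Fin (n + 1)))
    ⟨_, single_mem_stdSimplex ℝ (0 : Fin (n + 1))⟩ F
    (by
      rw [continuousOn_pi]
      intro i
      exact (continuous_infDist_pt (A i)).continuousOn.div hDc.continuousOn
        (fun μ hμ => (hDpos μ hμ).ne'))
    (by
      intro μ hμ
      refine ⟨fun i => div_nonneg infDist_nonneg (hDpos μ hμ).le, ?_⟩
      simp only [F]
      rw [← Finset.sum_div]
      exact div_self (hDpos μ hμ).ne')
  obtain ⟨i, hi⟩ := hcov μ hμ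
  have h0 : infDist μ (A i) = 0 := infDist_zero_of_mem hi
  have h1 : μ i = 0 := by
    have := congrFun hfix i
    simp only [F] at this
    rw [← this, h0, zero_div]
  exact hmiss i μ hμ h1 hi

end Pool.Agent.Helper29.SF
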