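import Pool.Agent.Helper29.SF.KKM
import Pool.Agent.Helper29.SF.Cater
import Pool.Agent.Helper50.StarFinite3

set_option autoImplicit false
set_option linter.unusedSectionVars false

open Set Metric Filter Topology
open Pool.Agent.Helper50.StarFinite

namespace Pool.Agent.Helper29.SF

universe u v

variable {E : Type u} [NormedAddCommGroup E] [NormedSpace ℝ E]
variable {ι : Type v} {c : ι → E} {r : ι → ℝ}

/-- Selection of a ball and of an open set of directions in which one leaves radially all the balls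
through `x`. -/
lemma select' [CompleteSpace E]
    (hr : ∀ i, 0 < r i)
    (hcov : (⋃ i, closedBall (c i) (r i)) = univ)
    (hstar : ∀ i, {j : ι | (closedBall (c i) (r i) ∩ closedBall (c j) (r j)).Nonempty}.Finite)
    {x : E} {ε : ℝ} (hε : 0 < ε) (hs : Sing c r x)
    (h2 : ∀ i, (closedBall (c i) (r i) ∩ ball x ε).Nonempty → x ∈ closedBall (c i) (r i) ∨
        ∀ j, x ∈ closedBall (c j) (r j) →
          Disjoint (closedBall (c i) (r i)) (closedBall (c j) (r j))) :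
    ∃ l : ι, x ∈ closedBall (c l) (r l) ∧ ∃ b : E, ‖b‖ = 1 ∧ ∃ δ : ℝ, 0 < δ ∧ ∃ d : ℝ, 0 < d ∧
      ∀ v : E, ‖v‖ = 1 → ‖v - b‖ < δ → c l + r l • v ∈ ball x (ε / 16) ∧
        ∀ s : ℝ, 0 < s → s ≤ d →
          ∀ j, x ∈ closedBall (c j) (r j) → c l + (r l + s) • v ∉ closedBall (c j) (r j) := by
  classical
  set J := {j : ι | x ∈ closedBall (c j) (r j)} with hJ
  have hJf : J.Finite := ptFinite hcov hstar x
  obtain ⟨j1, hj1⟩ : J.Nonempty := by
    have hp : x ∈ ⋃ i, closedBall (c i) (r i) := by rw [hcov]; trivial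
    obtain ⟨i, hi⟩ := mem_iUnion.1 hp
    exact ⟨i, hi⟩
  obtain ⟨k, hk, hkJ⟩ : ∃ k ∈ {j : ι | (closedBall (c j) (r j) ∩ ball x (ε / 64)).Nonempty},
      k ∉ J := (hs (ε / 64) (by positivity)).exists_notMem_finite hJf
  obtain ⟨u0, hu0k, hu0x⟩ := hk
  have hu0 : ∀ j ∈ J, u0 ∉ closedBall (c j) (r j) := by
    intro j hj hu
    rcases h2 k ⟨u0, hu0k, ball_subset_ball (by linarith) hu0x⟩ with h | h
    · exact hkJ h
    · exact Set.disjoint_left.1 (h j hj) hu0k hu
  have hCcl : IsClosed (⋃ j ∈ J, closedBall (c j) (r j)) :=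
    hJf.isClosed_biUnion (fun j _ => isClosed_closedBall)
  set W : Set E := ball x (ε / 64) ∩ (⋃ j ∈ J, closedBall (c j) (r j))ᶜ with hW
  have hWo : IsOpen W := isOpen_ball.inter hCcl.isOpen_compl
  have hWn : W.Nonempty := ⟨u0, hu0x, by
    simp only [mem_compl_iff, mem_iUnion, not_exists]
    exact fun j hj => hu0 j hj⟩
  set M : ι → Set E := fun l => {u | ∀ j ∈ J, ‖u - c l‖ - r l ≤ ‖u - c j‖ - r j} with hM
  have hMc : ∀ l ∈ J, IsClosed (M l) := by
    intro l _
    have : M l = ⋂ j ∈ J, {u | ‖u - c l‖ - r l ≤ ‖u - c j‖ - r j} := by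
      ext u; simp [hM]
    rw [this]
    refine isClosed_biInter (fun j _ => isClosed_le ?_ ?_)
    · fun_prop
    · fun_prop
  have hMU : (⋃ l ∈ J, M l) = univ := by
    ext u
    simp only [mem_iUnion, mem_univ, iff_true, exists_prop]
    obtain ⟨l, hl, hmin⟩ := hJf.exists_minimalFor (fun j => ‖u - c j‖ - r j) J ⟨j1, hj1⟩
    refine ⟨l, hl, ?_⟩
    intro j hj
    rcases le_total (‖u - c l‖ - r l) (‖u - c j‖ - r j) with h | h
    · exact h
    · exact hmin hj h
  have hdense := dense_biUnion_interior_of_closed hMc hJf.countable hMU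
  obtain ⟨u, huW, huM⟩ := hdense.inter_open_nonempty W hWo hWn
  simp only [mem_iUnion, exists_prop] at huM
  obtain ⟨l, hlJ, hul⟩ := huM
  rw [mem_interior_iff_mem_nhds, Metric.mem_nhds_iff] at hul
  obtain ⟨δ1, hδ1, hδsub⟩ := hul
  have hul' : u ∉ closedBall (c l) (r l) := by
    have := huW.2
    simp only [mem_compl_iff, mem_iUnion, not_exists] at this
    exact this l hlJ
  rw [mem_closedBall, dist_eq_norm, not_le] at hul'
  set R := ‖u - c l‖ with hR
  set d := R - r l with hd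
  have hd0 : 0 < d := by linarith
  have hR0 : 0 < R := by linarith [hr l]
  have hux : ‖u - x‖ < ε / 64 := by
    have := huW.1
    rwa [mem_ball, dist_eq_norm] at this
  have hxl : ‖x - c l‖ ≤ r l := by
    have : x ∈ closedBall (c l) (r l) := hlJ
    rwa [mem_closedBall, dist_eq_norm] at this
  have hdε : d < ε / 64 := by
    have : R ≤ ‖u - x‖ + ‖x - c l‖ := by
      rw [hR]
      calc ‖u - c l‖ = ‖(u - x) + (x - c l)‖ := by congr 1; abel
        _ ≤ _ := norm_add_le _ _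
    linarith
  refine ⟨l, hlJ, (1 / R) • (u - c l), ?_, min (δ1 / R) (ε / 64 / R),
    lt_min (by positivity) (by positivity), d, hd0, ?_⟩
  · rw [norm_smul, Real.norm_eq_abs, abs_of_pos (by positivity), ← hR]
    field_simp
  intro v hv hvb
  have hvR : ‖(c l + R • v) - u‖ = R * ‖v - (1 / R) • (u - c l)‖ := by
    have : (c l + R • v) - u = R • (v - (1 / R) • (u - c l)) := by
      rw [smul_sub, smul_smul, mul_one_div_cancel hR0.ne', one_smul]
      abel
    rw [this, norm_smul, Real.norm_eq_abs, abs_of_pos hR0]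
  have hv1 : ‖(c l + R • v) - u‖ < δ1 := by
    rw [hvR]
    have := hvb.trans_le (min_le_left _ _)
    rw [lt_div_iff₀ hR0] at this
    linarith
  have hv2 : ‖(c l + R • v) - u‖ < ε / 64 := by
    rw [hvR]
    have := hvb.trans_le (min_le_right _ _)
    rw [lt_div_iff₀ hR0] at this
    linarith
  have hvM : c l + R • v ∈ M l := hδsub (by rw [mem_ball, dist_eq_norm]; exact hv1)
  have hnRv : ‖(c l + R • v) - c l‖ = R := by
    rw [add_sub_cancel_left, norm_smul, hv, Real.norm_eq_abs, abs_of_pos hR0, mul_one]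
  constructor
  · rw [mem_ball, dist_eq_norm]
    have h3 : c l + r l • v - x = ((c l + R • v) - u) + (u - x) + (-d) • v := by
      rw [hd]; module
    calc ‖c l + r l • v - x‖ = ‖((c l + R • v) - u) + (u - x) + (-d) • v‖ := by rw [h3]
      _ ≤ ‖(c l + R • v) - u‖ + ‖u - x‖ + ‖(-d) • v‖ := norm_add₃_le
      _ < ε / 16 := by
        rw [norm_smul, hv, norm_neg, Real.norm_eq_abs, abs_of_pos hd0]
        linarith
  · intro s hs0 hsd j hj hcon
    rw [mem_closedBall, dist_eq_norm] at hcon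
    have h4 := hvM j hj
    rw [hnRv] at h4
    have h5 : ‖(c l + R • v) - c j‖ ≤ ‖c l + (r l + s) • v - c j‖ + (d - s) := by
      have h6 : (c l + R • v) - c j = (c l + (r l + s) • v - c j) + (d - s) • v := by
        rw [hd]; module
      calc ‖(c l + R • v) - c j‖ ≤ ‖c l + (r l + s) • v - c j‖ + ‖(d - s) • v‖ := by
            rw [h6]; exact norm_add_le _ _
        _ = ‖c l + (r l + s) • v - c j‖ + (d - s) := by
            rw [norm_smul, hv, Real.norm_eq_abs, abs_of_nonneg (by linarith), mul_one]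
    linarith

/-- A functional which separates two disjoint closed balls, seen from the first centre. -/
lemma sep_balls {a b : E} {ρ σ : ℝ} (hρ : 0 < ρ) (hσ : 0 < σ)
    (h : Disjoint (closedBall a ρ) (closedBall b σ)) :
    ∃ f : E →L[ℝ] ℝ, ‖f‖ ≤ 1 ∧ ∀ p ∈ closedBall b σ, ρ < f (p - a) := by
  have h1 : ρ + σ < ‖b - a‖ := by
    by_contra hcon
    push Not at hcon
    have h2 : a + (ρ / (ρ + σ)) • (b - a) ∈ closedBall a ρ := by
      rw [mem_closedBall, dist_eq_norm, add_sub_cancel_left, norm_smul, Real.norm_eq_abs,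
        abs_of_pos (by positivity)]
      calc ρ / (ρ + σ) * ‖b - a‖ ≤ ρ / (ρ + σ) * (ρ + σ) :=
            mul_le_mul_of_nonneg_left hcon (by positivity)
        _ = ρ := by field_simp
    have h3 : a + (ρ / (ρ + σ)) • (b - a) ∈ closedBall b σ := by
      rw [mem_closedBall, dist_eq_norm]
      have e : a + (ρ / (ρ + σ)) • (b - a) - b = (-(σ / (ρ + σ))) • (b - a) := by
        have : ρ / (ρ + σ) = 1 - σ / (ρ + σ) := by field_simp; ring
        rw [this]; module
      rw [e, norm_smul, norm_neg, Real.norm_eq_abs, abs_of_pos (by positivity)]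
      calc σ / (ρ + σ) * ‖b - a‖ ≤ σ / (ρ + σ) * (ρ + σ) :=
            mul_le_mul_of_nonneg_left hcon (by positivity)
        _ = σ := by field_simp
    exact Set.disjoint_left.1 h h2 h3
  obtain ⟨f, hf1, hf2⟩ := exists_dual_vector'' ℝ (b - a)
  refine ⟨f, hf1, ?_⟩
  intro p hp
  rw [mem_closedBall, dist_eq_norm] at hp
  have h2 : f (b - p) ≤ σ := by
    calc f (b - p) ≤ ‖f (b - p)‖ := le_abs_self _
      _ ≤ ‖f‖ * ‖b - p‖ := f.le_opNorm _
      _ ≤ 1 * ‖b - p‖ := by gcongr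
      _ ≤ σ := by rw [one_mul, ← norm_neg]; simpa using hp
  have h3 : f (p - a) = f (b - a) - f (b - p) := by rw [← map_sub]; congr 1; abel
  rw [h3, hf2]
  simp only [RCLike.ofReal_real_eq_id, id_eq]
  linarith

/-- The theorem: some point is a limit of points of arbitrarily high multiplicity. -/
theorem unbounded_order [CompleteSpace E] [TopologicalSpace.SeparableSpace E]
    (hE : ¬ FiniteDimensional ℝ E) (hr : ∀ i, 0 < r i)
    (hcov : (⋃ i, closedBall (c i) (r i)) = univ)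
    (hstar : ∀ i, {j : ι | (closedBall (c i) (r i) ∩ closedBall (c j) (r j)).Nonempty}.Finite) :
    ∃ z : E, ∀ ε : ℝ, 0 < ε → ∀ n : ℕ, ∃ p : E, ‖p - z‖ < ε ∧ ∃ s : Finset ι, n ≤ s.card ∧
      ∀ i ∈ s, p ∈ closedBall (c i) (r i) := by
  classical
  obtain ⟨x, ε, hε, hs, h1, h2⟩ := exists_good hE hr hcov hstar
  obtain ⟨l, hl, b, hb, δ, hδ, d, hd, hsel⟩ := select' hr hcov hstar hε hs h2
  have hrl := hr l
  refine ⟨c l + r l • b, ?_⟩
  intro ε' hε' n
  -- rough points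
  have hrough : ∀ v : E, v ≠ 0 → ‖(1 / ‖v‖) • v - b‖ < δ → Rough v := by
    intro v hv0 hv
    refine ⟨hv0, ?_⟩
    intro η hη
    have hn : 0 < ‖v‖ := norm_pos_iff.2 hv0
    have hu : ‖(1 / ‖v‖) • v‖ = 1 := by
      rw [norm_smul, Real.norm_eq_abs, abs_of_pos (by positivity)]
      field_simp
    obtain ⟨hz, hacc⟩ := hsel _ hu hv
    have hacc' : ∀ t : ℝ, 0 < t → ∃ p : E, ‖p - (c l + r l • ((1 / ‖v‖) • v))‖ < t ∧
        ∀ j, x ∈ closedBall (c j) (r j) → p ∉ closedBall (c j) (r j) := by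
      intro t ht
      refine ⟨c l + (r l + min (t / 2) d) • ((1 / ‖v‖) • v), ?_,
        hacc _ (lt_min (by positivity) hd) (min_le_right _ _)⟩
      have e : c l + (r l + min (t / 2) d) • ((1 / ‖v‖) • v) - (c l + r l • ((1 / ‖v‖) • v)) =
          (min (t / 2) d) • ((1 / ‖v‖) • v) := by module
      rw [e, norm_smul, hu, Real.norm_eq_abs, abs_of_pos (lt_min (by positivity) hd), mul_one]
      have := min_le_left (t / 2) d
      linarith
    obtain ⟨w, hw, hw1, hw2⟩ := triple hE hr hcov hstar hε h1 h2 hl hu hz hacc' hη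
    have hvv : v = ‖v‖ • ((1 / ‖v‖) • v) := by
      rw [smul_smul, mul_one_div_cancel hn.ne', one_smul]
    refine ⟨‖v‖ • w, ?_, ?_, ?_⟩
    · rw [norm_smul, norm_norm]
      nlinarith
    · have : v + ‖v‖ • w = ‖v‖ • ((1 / ‖v‖) • v + w) := by
        rw [smul_add, ← hvv]
      rw [this, norm_smul, norm_norm]
      nlinarith
    · have : v - ‖v‖ • w = ‖v‖ • ((1 / ‖v‖) • v - w) := by
        rw [smul_sub, ← hvv]
      rw [this, norm_smul, norm_norm]
      nlinarith
  -- the size of the simplex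
  set s : ℝ := min (min (1 / 2) (δ / 4)) (ε' / (8 * r l)) with hsdef
  have hs0 : 0 < s := lt_min (lt_min (by norm_num) (by positivity)) (by positivity)
  have hs1 : s ≤ 1 / 2 := (min_le_left _ _).trans (min_le_left _ _)
  have hs2 : s ≤ δ / 4 := (min_le_left _ _).trans (min_le_right _ _)
  have hs3 : s ≤ ε' / (8 * r l) := min_le_right _ _
  have hdir : ∀ q : E, ‖q - b‖ ≤ s → q ≠ 0 ∧ ‖(1 / ‖q‖) • q - b‖ ≤ 2 * s := by
    intro q hq
    have hq1 : |‖q‖ - 1| ≤ s := by
      have := abs_norm_sub_norm_le q b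
      rw [hb] at this
      exact this.trans hq
    have hq2 : 1 / 2 ≤ ‖q‖ := by linarith [(abs_le.1 hq1).1]
    have hq0 : q ≠ 0 := norm_pos_iff.1 (by linarith)
    refine ⟨hq0, ?_⟩
    have e : (1 / ‖q‖) • q - b = (q - b) + ((1 / ‖q‖) - 1) • q := by module
    have e2 : ‖((1 / ‖q‖) - 1) • q‖ = |1 - ‖q‖| := by
      have hqn : (0 : ℝ) < ‖q‖ := by linarith
      rw [norm_smul, Real.norm_eq_abs, ← abs_of_pos hqn, ← abs_mul, abs_of_pos hqn]
      congr 1
      field_simp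
    rw [abs_sub_comm] at e2
    calc ‖(1 / ‖q‖) • q - b‖ ≤ ‖q - b‖ + ‖((1 / ‖q‖) - 1) • q‖ := by
          rw [e]; exact norm_add_le _ _
      _ ≤ s + s := add_le_add hq (by rw [e2]; exact hq1)
      _ = 2 * s := by ring
  obtain ⟨θ, hθ, hcat⟩ := cater (E := E) n 1 one_pos le_rfl
  obtain ⟨z, hz, hfz⟩ := hcat b s hs0 (by
    intro u hu
    obtain ⟨h3, h4⟩ := hdir u hu
    exact hrough u h3 (by linarith))
  -- the height
  set τ : ℝ := min (min d (ε / 16)) (min (ε' / 4) (θ * s * r l / 4)) with hτ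
  have hτ0 : 0 < τ := lt_min (lt_min hd (by positivity)) (lt_min (by positivity) (by positivity))
  have hτd : τ ≤ d := (min_le_left _ _).trans (min_le_left _ _)
  have hτε : τ ≤ ε / 16 := (min_le_left _ _).trans (min_le_right _ _)
  have hτε' : τ ≤ ε' / 4 := (min_le_right _ _).trans (min_le_left _ _)
  have hτθ : τ ≤ θ * s * r l / 4 := (min_le_right _ _).trans (min_le_right _ _)
  let q : (Fin (n + 1) → ℝ) → E := fun μ => ∑ k, μ k • z k
  let Φ : (Fin (n + 1) → ℝ) → E := fun μ => c l + ((r l + τ) / ‖q μ‖) • q μ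
  have hqb : ∀ μ ∈ stdSimplex ℝ (Fin (n + 1)), ‖q μ - b‖ ≤ s := by
    intro μ hμ
    have e : q μ - b = ∑ k, μ k • (z k - b) := by
      simp only [q, smul_sub, Finset.sum_sub_distrib]
      rw [← Finset.sum_smul, hμ.2, one_smul]
    rw [e]
    calc ‖∑ k, μ k • (z k - b)‖ ≤ ∑ k, ‖μ k • (z k - b)‖ := norm_sum_le _ _
      _ ≤ ∑ k, μ k * s := by
          refine Finset.sum_le_sum (fun k _ => ?_)
          rw [norm_smul, Real.norm_eq_abs, abs_of_nonneg (hμ.1 _)]
          exact mul_le_mul_of_nonneg_left (hz k) (hμ.1 _)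
      _ = s := by rw [← Finset.sum_mul, hμ.2, one_mul]
  have hqn : ∀ μ ∈ stdSimplex ℝ (Fin (n + 1)), 0 < ‖q μ‖ := fun μ hμ =>
    norm_pos_iff.2 (hdir _ (hqb μ hμ)).1
  have hqn2 : ∀ μ ∈ stdSimplex ℝ (Fin (n + 1)), ‖q μ‖ ≤ 2 := by
    intro μ hμ
    calc ‖q μ‖ = ‖(q μ - b) + b‖ := by congr 1; abel
      _ ≤ ‖q μ - b‖ + ‖b‖ := norm_add_le _ _
      _ ≤ 2 := by rw [hb]; linarith [hqb μ hμ]
  have hqc : Continuous q := by
    simp only [q]
    fun_prop
  have hΦc : ContinuousOn Φ (stdSimplex ℝ (Fin (n + 1))) := by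
    refine continuousOn_const.add (ContinuousOn.smul ?_ hqc.continuousOn)
    exact continuousOn_const.div hqc.norm.continuousOn (fun μ hμ => (hqn μ hμ).ne')
  have hΦdir : ∀ μ ∈ stdSimplex ℝ (Fin (n + 1)),
      Φ μ = c l + (r l + τ) • ((1 / ‖q μ‖) • q μ) := by
    intro μ _
    simp only [Φ, smul_smul, mul_one_div]
  have hun : ∀ μ ∈ stdSimplex ℝ (Fin (n + 1)), ‖(1 / ‖q μ‖) • q μ‖ = 1 := by
    intro μ hμ
    have := hqn μ hμ
    rw [norm_smul, Real.norm_eq_abs, abs_of_pos (by positivity)]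
    field_simp
  have hΦC : ∀ μ ∈ stdSimplex ℝ (Fin (n + 1)), ∀ j, x ∈ closedBall (c j) (r j) →
      Φ μ ∉ closedBall (c j) (r j) := by
    intro μ hμ
    rw [hΦdir μ hμ]
    refine (hsel _ (hun μ hμ) ?_).2 τ hτ0 hτd
    have := (hdir _ (hqb μ hμ)).2
    linarith
  have hΦx : ∀ μ ∈ stdSimplex ℝ (Fin (n + 1)), Φ μ ∈ ball x ε := by
    intro μ hμ
    have h3 := (hsel _ (hun μ hμ) (by
      have := (hdir _ (hqb μ hμ)).2
      linarith)).1
    rw [mem_ball, dist_eq_norm] at h3 ⊢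
    rw [hΦdir μ hμ]
    calc ‖c l + (r l + τ) • ((1 / ‖q μ‖) • q μ) - x‖
        = ‖(c l + r l • ((1 / ‖q μ‖) • q μ) - x) + τ • ((1 / ‖q μ‖) • q μ)‖ := by
          congr 1; module
      _ ≤ ‖c l + r l • ((1 / ‖q μ‖) • q μ) - x‖ + ‖τ • ((1 / ‖q μ‖) • q μ)‖ := norm_add_le _ _
      _ < ε := by
          rw [norm_smul, hun μ hμ, Real.norm_eq_abs, abs_of_pos hτ0]
          linarith
  have hΦz : ∀ μ ∈ stdSimplex ℝ (Fin (n + 1)), ‖Φ μ - (c l + r l • b)‖ < ε' := by
    intro μ hμ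
    rw [hΦdir μ hμ]
    have h3 := (hdir _ (hqb μ hμ)).2
    calc ‖c l + (r l + τ) • ((1 / ‖q μ‖) • q μ) - (c l + r l • b)‖
        = ‖r l • ((1 / ‖q μ‖) • q μ - b) + τ • ((1 / ‖q μ‖) • q μ)‖ := by
          congr 1; module
      _ ≤ ‖r l • ((1 / ‖q μ‖) • q μ - b)‖ + ‖τ • ((1 / ‖q μ‖) • q μ)‖ := norm_add_le _ _
      _ ≤ r l * (2 * s) + τ := by
          rw [norm_smul, norm_smul τ, hun μ hμ, Real.norm_eq_abs, Real.norm_eq_abs,
            abs_of_pos hτ0, abs_of_pos hrl, mul_one]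
          gcongr
      _ ≤ r l * (2 * (ε' / (8 * r l))) + ε' / 4 := by gcongr
      _ = ε' / 2 := by field_simp; ring
      _ < ε' := by linarith
  -- the finitely many balls which meet the simplex
  set T : Set ι := {j | ∃ μ ∈ stdSimplex ℝ (Fin (n + 1)), Φ μ ∈ closedBall (c j) (r j)} with hT
  have hTf : T.Finite := by
    have hKc : IsCompact (Φ '' stdSimplex ℝ (Fin (n + 1))) :=
      (isCompact_stdSimplex ℝ (Fin (n + 1))).image_of_continuousOn hΦc
    have hns : ∀ p ∈ Φ '' stdSimplex ℝ (Fin (n + 1)), ∃ U ∈ 𝓝 p,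
        {j : ι | (closedBall (c j) (r j) ∩ U).Nonempty}.Finite := by
      rintro p ⟨μ, hμ, rfl⟩
      have hnot : ¬ Sing c r (Φ μ) := by
        intro hsing
        obtain ⟨i0, hi0, hloc⟩ := h1
        exact hΦC μ hμ i0 hi0 (hloc _ (hΦx μ hμ) hsing)
      simp only [Sing, not_forall] at hnot
      obtain ⟨e, he, hfin⟩ := hnot
      exact ⟨ball (Φ μ) e, ball_mem_nhds _ he, Set.not_infinite.1 hfin⟩
    choose! U hU hUf using hns
    obtain ⟨t, ht, htc⟩ := hKc.elim_nhds_subcover U hU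
    refine (t.finite_toSet.biUnion (fun p hp => hUf p (ht p hp))).subset ?_
    rintro j ⟨μ, hμ, hj⟩
    have := htc ⟨μ, hμ, rfl⟩
    simp only [mem_iUnion, exists_prop] at this
    obtain ⟨p, hp, hpU⟩ := this
    simp only [mem_iUnion, mem_ofPred_eq, exists_prop]
    exact ⟨p, hp, Φ μ, hj, hpU⟩
  -- each of them misses a facet
  have hmissT : ∀ j : ι, j ∈ T → ∃ i : Fin (n + 1), ∀ μ ∈ stdSimplex ℝ (Fin (n + 1)), μ i = 0 →
      Φ μ ∉ closedBall (c j) (r j) := by
    rintro j ⟨μ0, hμ0, hj0⟩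
    have hdisj : Disjoint (closedBall (c l) (r l)) (closedBall (c j) (r j)) := by
      rcases h2 j ⟨Φ μ0, hj0, hΦx μ0 hμ0⟩ with h | h
      · exact absurd hj0 (hΦC μ0 hμ0 j h)
      · exact (h l hl).symm
    obtain ⟨f, hf1, hf2⟩ := sep_balls hrl (hr j) hdisj
    obtain ⟨i, hi⟩ := hfz f hf1
    refine ⟨i, ?_⟩
    intro μ hμ hμi hj
    have h3 := hi μ hμ hμi 1 le_rfl le_rfl
    have h4 := hf2 _ hj
    have hqp := hqn μ hμ
    have e1 : Φ μ - c l = ((r l + τ) / ‖q μ‖) • q μ := by simp only [Φ]; abel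
    rw [e1, map_smul, smul_eq_mul, div_mul_eq_mul_div, lt_div_iff₀ hqp] at h4
    have e2 : b + (1 : ℝ) • (∑ k, μ k • z k - b) = q μ := by simp only [q]; module
    rw [e2, one_smul, map_sub, hb] at h3
    have e3 : f (∑ k, μ k • z k) = f (q μ) := rfl
    rw [e3] at h3
    have h5 : f b ≤ 1 := by
      calc f b ≤ ‖f b‖ := le_abs_self _
        _ ≤ ‖f‖ * ‖b‖ := f.le_opNorm _
        _ ≤ 1 := by rw [hb]; linarith
    have h6 : f (q μ) ≤ ‖q μ‖ - θ * s := by linarith
    have h7 : (r l + τ) * f (q μ) ≤ (r l + τ) * (‖q μ‖ - θ * s) :=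
      mul_le_mul_of_nonneg_left h6 (by positivity)
    have h8 := hqn2 μ hμ
    have h9 : τ * ‖q μ‖ ≤ τ * 2 := mul_le_mul_of_nonneg_left h8 hτ0.le
    have h10 : 0 < θ * s * r l := by positivity
    have h11 : 0 < τ * (θ * s) := by positivity
    nlinarith
  choose! g hg using hmissT
  obtain ⟨μ, hμ, hall⟩ := kkm n
    (fun i => stdSimplex ℝ (Fin (n + 1)) ∩ Φ ⁻¹' (⋃ j ∈ {j | j ∈ T ∧ g j = i},
      closedBall (c j) (r j)))
    (by
      intro i
      refine hΦc.preimage_isClosed_of_isClosed (isClosed_stdSimplex ℝ (Fin (n + 1))) ?_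
      exact (hTf.subset (fun j hj => hj.1)).isClosed_biUnion (fun j _ => isClosed_closedBall))
    (by
      intro μ hμ
      have : Φ μ ∈ ⋃ i, closedBall (c i) (r i) := by rw [hcov]; trivial
      obtain ⟨j, hj⟩ := mem_iUnion.1 this
      refine ⟨g j, hμ, ?_⟩
      simp only [mem_preimage, mem_iUnion, mem_ofPred_eq, exists_prop]
      exact ⟨j, ⟨⟨μ, hμ, hj⟩, rfl⟩, hj⟩)
    (by
      intro i μ hμ hi hmem
      have h3 := hmem.2
      simp only [mem_preimage, mem_iUnion, mem_ofPred_eq, exists_prop] at h3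
      obtain ⟨j, ⟨hjT, hjg⟩, hj⟩ := h3
      exact hg j hjT μ hμ (by rw [hjg]; exact hi) hj)
  have hsel2 : ∀ i : Fin (n + 1), ∃ j : ι, g j = i ∧ Φ μ ∈ closedBall (c j) (r j) := by
    intro i
    have h3 := (hall i).2
    simp only [mem_preimage, mem_iUnion, mem_ofPred_eq, exists_prop] at h3
    obtain ⟨j, ⟨_, hjg⟩, hj⟩ := h3
    exact ⟨j, hjg, hj⟩
  choose J hJg hJm using hsel2
  refine ⟨Φ μ, hΦz μ hμ, Finset.univ.image J, ?_, ?_⟩
  · rw [Finset.card_image_of_injective _ (fun a b hab => by rw [← hJg a, hab, hJg b])]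
    simp
  · intro i hi
    simp only [Finset.mem_image, Finset.mem_univ, true_and] at hi
    obtain ⟨k, rfl⟩ := hi
    exact hJm k

end Pool.Agent.Helper29.SF
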