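import Pool.Agent.Helper50.StarFinite2

set_option autoImplicit false
set_option linter.unusedSectionVars false

open Set Metric Filter Topology
open Pool.Agent.Helper50.StarFinite

namespace Pool.Agent.Helper29.SF

universe u v

variable {E : Type u} [NormedAddCommGroup E] [NormedSpace ℝ E]
variable {ι : Type v} {c : ι → E} {r : ι → ℝ}

/-- The three balls lemma at a boundary point of a ball which is accumulated by fat balls only. -/
lemma triple'
    (hr : ∀ i, 0 < r i)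
    (hstar : ∀ i, {j : ι | (closedBall (c i) (r i) ∩ closedBall (c j) (r j)).Nonempty}.Finite)
    {l : ι} {v : E} (hv : ‖v‖ = 1) {ε ρ0 : ℝ} (hε : 0 < ε) (hρ0 : 0 < ρ0)
    (hfat : ∀ p : E, ‖p - (c l + r l • v)‖ < ε → p ∉ closedBall (c l) (r l) →
      ∃ i, p ∈ closedBall (c i) (r i) ∧ ρ0 ≤ r i ∧
        Disjoint (closedBall (c i) (r i)) (closedBall (c l) (r l)))
    (hdis : ∀ i, (closedBall (c i) (r i) ∩ ball (c l + r l • v) ε).Nonempty → i = l ∨
      Disjoint (closedBall (c i) (r i)) (closedBall (c l) (r l)))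
    {η : ℝ} (hη : 0 < η) :
    ∃ w : E, ‖w‖ ≤ 1 ∧ 2 - η ≤ ‖v + w‖ ∧ 2 - η ≤ ‖v - w‖ := by
  classical
  set z' := c l + r l • v with hz'
  set C : Set E := closedBall (c l) (r l) with hC
  have hCcl : IsClosed C := isClosed_closedBall
  have hrl := hr l
  set ρ := min (min (ε / 16) ρ0) (r l) with hρdef
  have hρ : 0 < ρ := lt_min (lt_min (by positivity) hρ0) hrl
  have hρε : ρ ≤ ε / 16 := (min_le_left _ _).trans (min_le_left _ _)
  have hρ0' : ρ ≤ ρ0 := (min_le_left _ _).trans (min_le_right _ _)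
  have hρl : ρ ≤ r l := min_le_right _ _
  set t := min (η * ρ / 4) (ε / 16) with htdef
  have ht : 0 < t := lt_min (by positivity) (by positivity)
  have htη : t ≤ η * ρ / 4 := min_le_left _ _
  have htε : t ≤ ε / 16 := min_le_right _ _
  -- the point p and the fat ball j
  set p := z' + (t / 2) • v with hp
  have hpz : ‖p - z'‖ < t := by
    rw [hp, add_sub_cancel_left, norm_smul, hv, Real.norm_eq_abs, abs_of_pos (by positivity)]
    linarith
  have hpC : p ∉ C := by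
    rw [hC, mem_closedBall, dist_eq_norm, hp, hz']
    have : c l + r l • v + (t / 2) • v - c l = (r l + t / 2) • v := by module
    rw [this, norm_smul, hv, Real.norm_eq_abs, abs_of_pos (by positivity)]
    linarith
  obtain ⟨j, hpj, hrj, hjd⟩ := hfat p (by linarith) hpC
  set w := (1 / r j) • (c j - p) with hw
  obtain ⟨hsubj, hw1⟩ := subball (hr j) hρ.le (by linarith : ρ ≤ r j) hpj
  rw [← hw] at hsubj hw1
  set b := p + ρ • w with hb
  set a := z' - ρ • v with ha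
  have hsuba : closedBall a ρ ⊆ closedBall (c l) (r l) := by
    intro q hq
    rw [mem_closedBall, dist_eq_norm] at hq ⊢
    have h3 : q - c l = (q - a) + (r l - ρ) • v := by
      rw [ha, hz']; module
    calc ‖q - c l‖ ≤ ‖q - a‖ + ‖(r l - ρ) • v‖ := by rw [h3]; exact norm_add_le _ _
      _ ≤ ρ + (r l - ρ) := by
          refine add_le_add hq ?_
          rw [norm_smul, hv, Real.norm_eq_abs, abs_of_nonneg (by linarith), mul_one]
      _ = r l := by ring
  have hbC : ∀ q ∈ closedBall b ρ, q ∉ C := fun q hq hqC =>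
    Set.disjoint_left.1 hjd (hsubj hq) hqC
  have haC : ∀ q ∈ closedBall a ρ, q ∈ C := fun q hq => hsuba hq
  -- the segment
  set γ : ℝ → E := fun τ => a + τ • (b - a) with hγ
  have hγc : Continuous γ := by fun_prop
  have hab : 2 * ρ < ‖b - a‖ := by
    apply dist_gt_of_disjoint hρ.le
    rw [Set.disjoint_left]
    intro q hq1 hq2
    exact hbC q hq2 (haC q hq1)
  set ℓ := ‖b - a‖ with hℓ
  have hba : b - a = ρ • (v + w) + (p - z') := by rw [hb, ha]; module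
  have hℓle : ℓ ≤ 2 * ρ + t := by
    have h4 : ‖v + w‖ ≤ 2 := by
      calc ‖v + w‖ ≤ ‖v‖ + ‖w‖ := norm_add_le _ _
        _ ≤ 2 := by rw [hv]; linarith
    calc ℓ = ‖ρ • (v + w) + (p - z')‖ := by rw [hℓ, hba]
      _ ≤ ‖ρ • (v + w)‖ + ‖p - z'‖ := norm_add_le _ _
      _ ≤ ρ * 2 + t := by
          refine add_le_add ?_ hpz.le
          rw [norm_smul, Real.norm_eq_abs, abs_of_pos hρ]
          exact mul_le_mul_of_nonneg_left h4 hρ.le
      _ = 2 * ρ + t := by ring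
  have hTc : IsCompact (Icc (0 : ℝ) 1 ∩ γ ⁻¹' C) :=
    isCompact_Icc.inter_right (hCcl.preimage hγc)
  have hT0 : (Icc (0 : ℝ) 1 ∩ γ ⁻¹' C).Nonempty := by
    refine ⟨0, ⟨le_refl _, zero_le_one⟩, ?_⟩
    rw [mem_preimage, hγ]
    simp only [zero_smul, add_zero]
    exact haC a (mem_closedBall_self hρ.le)
  obtain ⟨τ0, ⟨⟨hτ00, hτ01⟩, hτ0C⟩, hτmax⟩ := hTc.exists_isGreatest hT0
  have hτmax' : ∀ τ : ℝ, τ0 < τ → τ ≤ 1 → γ τ ∉ C := by
    intro τ hτ1 hτ2 hτC
    have := hτmax ⟨⟨by linarith, hτ2⟩, hτC⟩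
    linarith
  have hℓ0 : 0 < ℓ := by linarith
  -- distance to a
  have hza : ρ ≤ τ0 * ℓ := by
    by_contra hcon
    push Not at hcon
    have h5 : ρ / ℓ ≤ 1 := by rw [div_le_one hℓ0]; linarith
    refine hτmax' (ρ / ℓ) (by rw [lt_div_iff₀ hℓ0]; exact hcon) h5 (haC _ ?_)
    rw [mem_closedBall, dist_eq_norm, hγ]
    simp only [add_sub_cancel_left]
    rw [norm_smul, Real.norm_eq_abs, abs_of_pos (by positivity), ← hℓ]
    exact (div_mul_cancel₀ _ hℓ0.ne').le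
  have hzb : ρ < (1 - τ0) * ℓ := by
    by_contra hcon
    push Not at hcon
    refine hbC (γ τ0) ?_ hτ0C
    rw [mem_closedBall, dist_eq_norm]
    have : γ τ0 - b = (-(1 - τ0)) • (b - a) := by rw [hγ]; module
    rw [this, norm_smul, norm_neg, Real.norm_eq_abs, abs_of_nonneg (by linarith), ← hℓ]
    exact hcon
  set z0 := γ τ0 with hz0
  have hax : ‖a - z'‖ < ε / 4 := by
    rw [ha, sub_sub_cancel_left, norm_neg, norm_smul, hv, Real.norm_eq_abs, abs_of_pos hρ]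
    linarith
  have hbx : ‖b - z'‖ < ε / 4 := by
    calc ‖b - z'‖ = ‖(p - z') + ρ • w‖ := by rw [hb]; congr 1; module
      _ ≤ ‖p - z'‖ + ‖ρ • w‖ := norm_add_le _ _
      _ < ε / 4 := by
          rw [norm_smul, Real.norm_eq_abs, abs_of_pos hρ]
          nlinarith
  have hγx : ∀ τ : ℝ, 0 ≤ τ → τ ≤ 1 → γ τ ∈ ball z' (ε / 4) := by
    intro τ hτ0 hτ1
    have hA : a ∈ ball z' (ε / 4) := by rwa [mem_ball, dist_eq_norm]
    have hB : b ∈ ball z' (ε / 4) := by rwa [mem_ball, dist_eq_norm]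
    have := (convex_ball z' (ε / 4)) hA hB (sub_nonneg.2 hτ1) hτ0 (by ring)
    convert this using 1
    rw [hγ]; module
  -- the finitely many balls meeting the ball j stay away from z0
  set S := {i : ι | (closedBall (c j) (r j) ∩ closedBall (c i) (r i)).Nonempty} with hS
  have hScl : IsClosed (⋃ i ∈ S, closedBall (c i) (r i)) :=
    (hstar j).isClosed_biUnion (fun i _ => isClosed_closedBall)
  have hz0S : z0 ∈ (⋃ i ∈ S, closedBall (c i) (r i))ᶜ := by
    simp only [mem_compl_iff, mem_iUnion, not_exists]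
    intro i hi hzi
    have hzxε : z0 ∈ ball z' ε := ball_subset_ball (by linarith) (hγx τ0 hτ00 hτ01)
    rcases hdis i ⟨z0, hzi, hzxε⟩ with h | h
    · obtain ⟨q, hq1, hq2⟩ := hi
      rw [h] at hq2
      exact Set.disjoint_left.1 hjd hq1 hq2
    · exact Set.disjoint_left.1 h hzi hτ0C
  obtain ⟨δ, hδ, hδsub⟩ := Metric.isOpen_iff.1 hScl.isOpen_compl z0 hz0S
  -- the point y
  have hτ1 : τ0 < 1 := by nlinarith
  set κ := min (1 - τ0) (min δ t / (2 * ℓ)) with hκ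
  have hκ0 : 0 < κ := lt_min (by linarith) (div_pos (lt_min hδ ht) (by positivity))
  have hκ1 : τ0 + κ ≤ 1 := by have := min_le_left (1 - τ0) (min δ t / (2 * ℓ)); linarith
  have hκℓ : κ * ℓ < min δ t := by
    have h6 : κ ≤ min δ t / (2 * ℓ) := min_le_right _ _
    have h7 : 0 < min δ t := lt_min hδ ht
    calc κ * ℓ ≤ (min δ t / (2 * ℓ)) * ℓ := mul_le_mul_of_nonneg_right h6 hℓ0.le
      _ = min δ t / 2 := by field_simp
      _ < min δ t := by linarith
  set y := γ (τ0 + κ) with hy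
  have hyz0 : ‖y - z0‖ = κ * ℓ := by
    have : y - z0 = κ • (b - a) := by rw [hy, hz0, hγ]; module
    rw [this, norm_smul, Real.norm_eq_abs, abs_of_pos hκ0]
  have hyC : y ∉ C := hτmax' (τ0 + κ) (by linarith) hκ1
  have hyx : ‖y - z'‖ < ε := by
    have := hγx (τ0 + κ) (by linarith) hκ1
    rw [mem_ball, dist_eq_norm] at this
    linarith
  obtain ⟨i, hyi, hri, hid⟩ := hfat y hyx hyC
  have hiS : i ∉ S := by
    intro hi
    have hyδ : y ∈ ball z0 δ := by
      rw [mem_ball, dist_eq_norm, hyz0]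
      exact hκℓ.trans_le (min_le_left _ _)
    have := hδsub hyδ
    simp only [mem_compl_iff, mem_iUnion, not_exists] at this
    exact this i hi hyi
  have hij : Disjoint (closedBall (c j) (r j)) (closedBall (c i) (r i)) := by
    rw [Set.disjoint_iff_inter_eq_empty, ← Set.not_nonempty_iff_eq_empty]
    exact hiS
  set ω := (1 / r i) • (c i - y) with hω
  obtain ⟨hsubi, hω1⟩ := subball (hr i) hρ.le (by linarith : ρ ≤ r i) hyi
  rw [← hω] at hsubi hω1
  set d := y + ρ • ω with hd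
  have hda : 2 * ρ < ‖d - a‖ := by
    apply dist_gt_of_disjoint hρ.le
    rw [Set.disjoint_left]
    intro q hq1 hq2
    exact Set.disjoint_left.1 hid (hsubi hq2) (hsuba hq1)
  have hdb : 2 * ρ < ‖d - b‖ := by
    apply dist_gt_of_disjoint hρ.le
    rw [Set.disjoint_left]
    intro q hq1 hq2
    exact Set.disjoint_left.1 hij (hsubj hq1) (hsubi hq2)
  -- estimates
  have hyz : ‖y - z0‖ ≤ t := by
    rw [hyz0]; exact (hκℓ.trans_le (min_le_right _ _)).le
  have he1 : ‖(2 * τ0 - 1) • (b - a)‖ ≤ t := by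
    rw [norm_smul, Real.norm_eq_abs, ← hℓ]
    have : |2 * τ0 - 1| * ℓ = |(2 * τ0 - 1) * ℓ| := by rw [abs_mul, abs_of_pos hℓ0]
    rw [this, abs_le]
    constructor <;> nlinarith
  have hpz' : ‖p - z'‖ ≤ t := hpz.le
  have hid1 : (2 : ℝ) • (d - a) = ρ • (v + w + (2 : ℝ) • ω) + ((p - z') +
      ((2 * τ0 - 1) • (b - a) + (2 : ℝ) • (y - z0))) := by
    have e1 : (2 : ℝ) • (d - a) = (2 : ℝ) • (z0 - a) + (2 : ℝ) • (y - z0) + (2 * ρ) • ω := by
      rw [hd]; module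
    have e2 : (2 : ℝ) • (z0 - a) = (b - a) + (2 * τ0 - 1) • (b - a) := by
      rw [hz0, hγ]; module
    rw [e1, e2, ]
    nth_rewrite 1 [hba]
    module
  have hid2 : (2 : ℝ) • (d - b) = (-ρ) • (v + w - (2 : ℝ) • ω) + (-(p - z') +
      ((2 * τ0 - 1) • (b - a) + (2 : ℝ) • (y - z0))) := by
    have e1 : (2 : ℝ) • (d - b) = (2 : ℝ) • (z0 - b) + (2 : ℝ) • (y - z0) + (2 * ρ) • ω := by
      rw [hd]; module
    have e2 : (2 : ℝ) • (z0 - b) = -(b - a) + (2 * τ0 - 1) • (b - a) := by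
      rw [hz0, hγ]; module
    rw [e1, e2]
    nth_rewrite 1 [hba]
    module
  have hbnd : ∀ (q : E), ‖q‖ ≤ t → ‖(2 : ℝ) • (y - z0)‖ ≤ 2 * t →
      ‖q + ((2 * τ0 - 1) • (b - a) + (2 : ℝ) • (y - z0))‖ ≤ 4 * t := by
    intro q hq h8
    calc ‖q + ((2 * τ0 - 1) • (b - a) + (2 : ℝ) • (y - z0))‖
        ≤ ‖q‖ + (‖(2 * τ0 - 1) • (b - a)‖ + ‖(2 : ℝ) • (y - z0)‖) :=
          (norm_add_le _ _).trans (by gcongr; exact norm_add_le _ _)
      _ ≤ 4 * t := by linarith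
  have h2y : ‖(2 : ℝ) • (y - z0)‖ ≤ 2 * t := by
    rw [norm_smul]; norm_num; exact hyz
  have hk1 : 4 * ρ - 4 * t < ρ * ‖v + w + (2 : ℝ) • ω‖ := by
    have h9 : 4 * ρ < ‖(2 : ℝ) • (d - a)‖ := by
      rw [norm_smul]; norm_num; linarith
    rw [hid1] at h9
    have h10 := (norm_add_le (ρ • (v + w + (2 : ℝ) • ω)) ((p - z') +
      ((2 * τ0 - 1) • (b - a) + (2 : ℝ) • (y - z0))))
    have h11 := hbnd (p - z') hpz' h2y
    have h12 : ‖ρ • (v + w + (2 : ℝ) • ω)‖ = ρ * ‖v + w + (2 : ℝ) • ω‖ := by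
      rw [norm_smul, Real.norm_eq_abs, abs_of_pos hρ]
    linarith
  have hk2 : 4 * ρ - 4 * t < ρ * ‖v + w - (2 : ℝ) • ω‖ := by
    have h9 : 4 * ρ < ‖(2 : ℝ) • (d - b)‖ := by
      rw [norm_smul]; norm_num; linarith
    rw [hid2] at h9
    have h10 := (norm_add_le ((-ρ) • (v + w - (2 : ℝ) • ω)) (-(p - z') +
      ((2 * τ0 - 1) • (b - a) + (2 : ℝ) • (y - z0))))
    have h11 := hbnd (-(p - z')) (by rw [norm_neg]; exact hpz') h2y
    have h12 : ‖(-ρ) • (v + w - (2 : ℝ) • ω)‖ = ρ * ‖v + w - (2 : ℝ) • ω‖ := by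
      rw [norm_smul, norm_neg, Real.norm_eq_abs, abs_of_pos hρ]
    linarith
  have hm1 : ‖v + w + (2 : ℝ) • ω‖ ≤ ‖v + ω‖ + 2 := by
    calc ‖v + w + (2 : ℝ) • ω‖ = ‖(v + ω) + (w + ω)‖ := by congr 1; module
      _ ≤ ‖v + ω‖ + (‖w‖ + ‖ω‖) := (norm_add_le _ _).trans (by gcongr; exact norm_add_le _ _)
      _ ≤ ‖v + ω‖ + 2 := by linarith
  have hm2 : ‖v + w - (2 : ℝ) • ω‖ ≤ ‖v - ω‖ + 2 := by
    calc ‖v + w - (2 : ℝ) • ω‖ = ‖(v - ω) + (w - ω)‖ := by congr 1; module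
      _ ≤ ‖v - ω‖ + (‖w‖ + ‖ω‖) := (norm_add_le _ _).trans (by gcongr; exact norm_sub_le _ _)
      _ ≤ ‖v - ω‖ + 2 := by linarith
  refine ⟨ω, hω1, ?_, ?_⟩
  · have h13 : ρ * (2 - η) ≤ ρ * ‖v + ω‖ := by nlinarith
    exact le_of_mul_le_mul_left h13 hρ
  · have h13 : ρ * (2 - η) ≤ ρ * ‖v - ω‖ := by nlinarith
    exact le_of_mul_le_mul_left h13 hρ

end Pool.Agent.Helper29.SF
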