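import Pool.Agent.Helper29.SF.Irr
import Pool.Agent.Helper29.SF.Tri

set_option autoImplicit false
set_option linter.unusedSectionVars false

open Set Metric Filter Topology
open Pool.Agent.Helper50.StarFinite

namespace Pool.Agent.Helper29.SF

universe u v

variable {E : Type u} [NormedAddCommGroup E] [NormedSpace ℝ E]
variable {ι : Type v} {c : ι → E} {r : ι → ℝ}

/-- In an irreducible star-finite covering some ball is such that no small ball accumulates at any
of its private boundary points. -/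
lemma exists_min [CompleteSpace E] [TopologicalSpace.SeparableSpace E]
    (hr : ∀ i, 0 < r i)
    (hcov : (⋃ i, closedBall (c i) (r i)) = univ)
    (hstar : ∀ i, {j : ι | (closedBall (c i) (r i) ∩ closedBall (c j) (r j)).Nonempty}.Finite) :
    ∃ l : ι, ∀ y : E, y ∈ closedBall (c l) (r l) → (∀ k, k ≠ l → y ∉ closedBall (c k) (r k)) →
      ∃ ε : ℝ, 0 < ε ∧ ∀ i, i ≠ l → ¬ closedBall (c i) (r i) ⊆ ball y ε := by
  classical
  by_contra hcon
  push Not at hcon
  choose y hy hpriv hbad using hcon
  have hcount : Countable ι := countable_index hr hcov hstar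
  have hne : Nonempty ι := by
    have : (0 : E) ∈ ⋃ i, closedBall (c i) (r i) := by rw [hcov]; trivial
    obtain ⟨i, _⟩ := mem_iUnion.1 this
    exact ⟨i⟩
  let F : Set E := closure (range y)
  have hFc : IsClosed F := isClosed_closure
  have : CompleteSpace F := hFc.completeSpace_coe
  have : Nonempty F := ⟨⟨y hne.some, subset_closure ⟨_, rfl⟩⟩⟩
  have hbaire : ∃ i, (interior ((fun x : F => (x : E)) ⁻¹' (closedBall (c i) (r i)))).Nonempty := by
    apply nonempty_interior_of_iUnion_of_closed
    · intro i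
      exact isClosed_closedBall.preimage continuous_subtype_val
    · rw [← preimage_iUnion, hcov, preimage_univ]
  obtain ⟨k, ⟨x, hx⟩⟩ := hbaire
  rw [mem_interior_iff_mem_nhds, Metric.mem_nhds_iff] at hx
  obtain ⟨ε, hε, hxε⟩ := hx
  have hloc : ∀ z ∈ F, z ∈ ball (x : E) ε → z ∈ closedBall (c k) (r k) := by
    intro z hzF hz
    have : (⟨z, hzF⟩ : F) ∈ ball x ε := by
      rw [mem_ball, Subtype.dist_eq]
      exact hz
    exact hxε this
  obtain ⟨_, ⟨j, rfl⟩, hj⟩ := Metric.mem_closure_iff.1 x.2 ε hε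
  rw [dist_comm] at hj
  have hjk : j = k := by
    by_contra hne'
    exact hpriv j k (Ne.symm hne') (hloc (y j) (subset_closure ⟨j, rfl⟩) hj)
  obtain ⟨i, hij, hi⟩ := hbad j (ε - dist (y j) (x : E)) (by linarith)
  have hyi : y i ∈ ball (x : E) ε := by
    have h1 := hi (hy i)
    rw [mem_ball] at h1 ⊢
    calc dist (y i) (x : E) ≤ dist (y i) (y j) + dist (y j) (x : E) := dist_triangle _ _ _
      _ < ε := by linarith
  have h2 := hloc (y i) (subset_closure ⟨i, rfl⟩) hyi
  rw [← hjk] at h2
  exact hpriv i j (Ne.symm hij) h2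

/-- The norm is `2`-rough at all unit vectors outside finitely many closed balls which miss a point
of the open unit ball. -/
theorem rough_off_balls [CompleteSpace E] [TopologicalSpace.SeparableSpace E]
    (hr : ∀ i, 0 < r i)
    (hcov : (⋃ i, closedBall (c i) (r i)) = univ)
    (hstar : ∀ i, {j : ι | (closedBall (c i) (r i) ∩ closedBall (c j) (r j)).Nonempty}.Finite) :
    ∃ p : E, ‖p‖ < 1 ∧ ∃ D : Finset (E × ℝ), (∀ d ∈ D, 0 < d.2 ∧ p ∉ closedBall d.1 d.2) ∧
      ∀ v : E, ‖v‖ = 1 → (∀ d ∈ D, v ∉ closedBall d.1 d.2) → ∀ η : ℝ, 0 < η →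
        ∃ w : E, ‖w‖ ≤ 1 ∧ 2 - η ≤ ‖v + w‖ ∧ 2 - η ≤ ‖v - w‖ := by
  classical
  obtain ⟨T, hT1, hT2⟩ := exists_irreducible (fun i => closedBall (c i) (r i)) hcov
    (fun x => ptFinite hcov hstar x)
  -- pass to the irreducible subfamily
  let c' : T → E := fun i => c i
  let r' : T → ℝ := fun i => r i
  have hr' : ∀ i, 0 < r' i := fun i => hr i
  have hcov' : (⋃ i, closedBall (c' i) (r' i)) = univ := by
    ext x
    simp only [mem_iUnion, mem_univ, iff_true]
    obtain ⟨i, hi, hxi⟩ := hT1 x
    exact ⟨⟨i, hi⟩, hxi⟩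
  have hstar' : ∀ i, {j : T | (closedBall (c' i) (r' i) ∩ closedBall (c' j) (r' j)).Nonempty}.Finite
      := by
    intro i
    exact ((hstar i).preimage Subtype.val_injective.injOn : _)
  obtain ⟨l, hl⟩ := exists_min hr' hcov' hstar'
  have hrl := hr' l
  obtain ⟨p0, hp0, hp0'⟩ := hT2 l l.2
  have hp0'' : ∀ k : T, k ≠ l → p0 ∉ closedBall (c' k) (r' k) := by
    intro k hk
    exact hp0' k k.2 (fun h => hk (Subtype.ext h))
  set N : Set T := {j : T | (closedBall (c' l) (r' l) ∩ closedBall (c' j) (r' j)).Nonempty} \ {l}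
    with hN
  have hNf : N.Finite := (hstar' l).sdiff
  have hNcl : IsClosed (⋃ k ∈ N, closedBall (c' k) (r' k)) :=
    hNf.isClosed_biUnion (fun _ _ => isClosed_closedBall)
  -- a private point in the interior of the ball
  have hp0N : p0 ∈ (⋃ k ∈ N, closedBall (c' k) (r' k))ᶜ := by
    simp only [mem_compl_iff, mem_iUnion, not_exists]
    exact fun k hk => hp0'' k (fun h => hk.2 h)
  obtain ⟨δ, hδ, hδsub⟩ := Metric.isOpen_iff.1 hNcl.isOpen_compl p0 hp0N
  have hp0n : ‖p0 - c' l‖ ≤ r' l := by
    have : p0 ∈ closedBall (c' l) (r' l) := hp0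
    rwa [mem_closedBall, dist_eq_norm] at this
  set t : ℝ := min (1 / 2) (δ / (2 * r' l)) with ht
  have ht0 : 0 < t := lt_min (by norm_num) (by positivity)
  have ht1 : t ≤ 1 / 2 := min_le_left _ _
  have ht2 : t ≤ δ / (2 * r' l) := min_le_right _ _
  set p1 : E := c' l + (1 - t) • (p0 - c' l) with hp1
  have hp1W : p1 ∈ ball p0 δ := by
    rw [mem_ball, dist_eq_norm]
    have : p1 - p0 = (-t) • (p0 - c' l) := by rw [hp1]; module
    rw [this, norm_smul, norm_neg, Real.norm_eq_abs, abs_of_pos ht0]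
    calc t * ‖p0 - c' l‖ ≤ (δ / (2 * r' l)) * r' l := by gcongr
      _ = δ / 2 := by field_simp
      _ < δ := by linarith
  have hp1N : ∀ k ∈ N, p1 ∉ closedBall (c' k) (r' k) := by
    intro k hk h
    have := hδsub hp1W
    simp only [mem_compl_iff, mem_iUnion, not_exists] at this
    exact this k hk h
  refine ⟨(1 / r' l) • (p1 - c' l), ?_,
    hNf.toFinset.image (fun k => ((1 / r' l) • (c' k - c' l), r' k / r' l)), ?_, ?_⟩
  · have : p1 - c' l = (1 - t) • (p0 - c' l) := by rw [hp1]; module
    rw [this, norm_smul, norm_smul, Real.norm_eq_abs, Real.norm_eq_abs, abs_of_pos (by positivity),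
      abs_of_pos (by linarith : 0 < 1 - t)]
    calc 1 / r' l * ((1 - t) * ‖p0 - c' l‖) ≤ 1 / r' l * ((1 - t) * r' l) := by
          have : 0 ≤ 1 - t := by linarith
          gcongr
      _ = 1 - t := by field_simp
      _ < 1 := by linarith
  · intro d hd
    simp only [Finset.mem_image, Set.Finite.mem_toFinset] at hd
    obtain ⟨k, hk, rfl⟩ := hd
    refine ⟨div_pos (hr' k) hrl, ?_⟩
    intro hcon
    apply hp1N k hk
    rw [mem_closedBall, dist_eq_norm] at hcon ⊢
    have e : p1 - c' k = r' l • ((1 / r' l) • (p1 - c' l) - (1 / r' l) • (c' k - c' l)) := by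
      rw [← smul_sub, smul_smul, mul_one_div_cancel hrl.ne', one_smul]; abel
    rw [e, norm_smul, Real.norm_eq_abs, abs_of_pos hrl]
    calc r' l * ‖(1 / r' l) • (p1 - c' l) - (1 / r' l) • (c' k - c' l)‖
        ≤ r' l * (r' k / r' l) := by gcongr
      _ = r' k := by field_simp
  · intro v hv hvD η hη
    set y : E := c' l + r' l • v with hy
    have hyl : y ∈ closedBall (c' l) (r' l) := by
      rw [mem_closedBall, dist_eq_norm, hy, add_sub_cancel_left, norm_smul, hv, Real.norm_eq_abs,
        abs_of_pos hrl, mul_one]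
    have hyN : ∀ k ∈ N, y ∉ closedBall (c' k) (r' k) := by
      intro k hk hcon
      apply hvD ((1 / r' l) • (c' k - c' l), r' k / r' l)
        (Finset.mem_image.2 ⟨k, by simpa using hk, rfl⟩)
      rw [mem_closedBall, dist_eq_norm] at hcon ⊢
      have e : v - (1 / r' l) • (c' k - c' l) = (1 / r' l) • (y - c' k) := by
        have : v = (1 / r' l) • (r' l • v) := by
          rw [smul_smul, one_div_mul_cancel hrl.ne', one_smul]
        rw [hy]
        nth_rewrite 1 [this]
        module
      rw [e, norm_smul, Real.norm_eq_abs, abs_of_pos (by positivity), one_div_mul_eq_div]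
      exact div_le_div_of_nonneg_right hcon hrl.le
    have hpriv : ∀ k, k ≠ l → y ∉ closedBall (c' k) (r' k) := by
      intro k hk hyk
      exact hyN k ⟨⟨y, hyl, hyk⟩, hk⟩ hyk
    obtain ⟨ε1, hε1, hsmall⟩ := hl y hyl hpriv
    have hyc : y ∈ (⋃ k ∈ N, closedBall (c' k) (r' k))ᶜ := by
      simp only [mem_compl_iff, mem_iUnion, not_exists]
      exact fun k hk => hyN k hk
    obtain ⟨ε2, hε2, hε2sub⟩ := Metric.isOpen_iff.1 hNcl.isOpen_compl y hyc
    set ε : ℝ := min ε1 ε2 with hε
    have hε0 : 0 < ε := lt_min hε1 hε2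
    have hdis : ∀ i, (closedBall (c' i) (r' i) ∩ ball y ε).Nonempty → i = l ∨
        Disjoint (closedBall (c' i) (r' i)) (closedBall (c' l) (r' l)) := by
      rintro i ⟨q, hq1, hq2⟩
      by_cases hil : i = l
      · exact Or.inl hil
      · right
        rw [Set.disjoint_iff_inter_eq_empty, ← Set.not_nonempty_iff_eq_empty]
        rintro ⟨z, hz1, hz2⟩
        have hiN : i ∈ N := ⟨⟨z, hz2, hz1⟩, hil⟩
        have := hε2sub (ball_subset_ball (min_le_right _ _) hq2)
        simp only [mem_compl_iff, mem_iUnion, not_exists] at this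
        exact this i hiN hq1
    refine triple' hr' hstar' (l := l) hv (ε := ε / 2) (ρ0 := ε / 8) (by positivity) (by positivity) ?_ ?_ hη
    · intro p hp hpl
      have : p ∈ ⋃ i, closedBall (c' i) (r' i) := by rw [hcov']; trivial
      obtain ⟨i, hi⟩ := mem_iUnion.1 this
      have hil : i ≠ l := fun h => hpl (h ▸ hi)
      refine ⟨i, hi, ?_, ?_⟩
      · by_contra hcon
        push Not at hcon
        apply hsmall i hil
        intro q hq
        rw [mem_closedBall, dist_eq_norm] at hi hq
        rw [mem_ball, dist_eq_norm]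
        have hε1' : ε ≤ ε1 := min_le_left _ _
        calc ‖q - y‖ = ‖(q - c' i) + (-(p - c' i)) + (p - y)‖ := by congr 1; abel
          _ ≤ ‖q - c' i‖ + ‖-(p - c' i)‖ + ‖p - y‖ := norm_add₃_le
          _ < ε1 := by rw [norm_neg]; linarith
      · rcases hdis i ⟨p, hi, by rw [mem_ball, dist_eq_norm]; linarith⟩ with h | h
        · exact absurd h hil
        · exact h
    · rintro i ⟨q, hq1, hq2⟩
      exact hdis i ⟨q, hq1, ball_subset_ball (by linarith) hq2⟩

end Pool.Agent.Helper29.SF
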